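import Mathlib

set_option autoImplicit false

/-! Zero-sum `ZMod 3` Ramsey numbers: the quadratic form of a map, and the fourfold difference. -/

namespace H717.Z3

open Finset Function

set_option linter.unusedSectionVars false
set_option linter.unusedSimpArgs false

variable {α V : Type*} [Fintype α] [DecidableEq α] [DecidableEq V]

/-- twice the weight of the copy given by `φ`. -/
def T (A : α → α → ZMod 3) (f : V → V → ZMod 3) (φ : α → V) : ZMod 3 :=
  ∑ x, ∑ y, A x y * f (φ x) (φ y)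

/-- the change of `T` when `x` is moved to `a`. -/
def L (A : α → α → ZMod 3) (f : V → V → ZMod 3) (φ : α → V) (x : α) (a : V) : ZMod 3 :=
  2 * ∑ y, A x y * (f a (φ y) - f (φ x) (φ y))

/-- mixed difference over the two pairs `(a, c)` and `(b, d)`. -/
def D (f : V → V → ZMod 3) (a c b d : V) : ZMod 3 := f a b - f a d - f c b + f c d

theorem T_update (A : α → α → ZMod 3) (f : V → V → ZMod 3) (hA : ∀ x y, A x y = A y x)
    (hA0 : ∀ x, A x x = 0) (hf : ∀ u v, f u v = f v u) (φ : α → V) (x : α) (a : V) :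
    T A f (update φ x a) = T A f φ + L A f φ x a := by
  have key : ∀ u v, A u v * f (update φ x a u) (update φ x a v) =
      A u v * f (φ u) (φ v) +
        ((if u = x then A x v * (f a (φ v) - f (φ x) (φ v)) else 0) +
         (if v = x then A x u * (f a (φ u) - f (φ x) (φ u)) else 0)) := by
    intro u v
    by_cases hu : u = x
    · by_cases hv : v = x
      · subst hu; subst hv; simp [hA0]
      · subst hu
        simp only [update_self, if_true, if_neg hv, update_of_ne hv]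
        ring
    · by_cases hv : v = x
      · subst hv
        simp only [update_self, if_true, if_neg hu, update_of_ne hu]
        rw [hA u v, hf (φ u) a, hf (φ u) (φ v)]
        ring
      · simp only [if_neg hv, if_neg hu, update_of_ne hu, update_of_ne hv]
        ring
  unfold T L
  simp only [key, Finset.sum_add_distrib]
  have h1 : (∑ u, ∑ v, (if u = x then A x v * (f a (φ v) - f (φ x) (φ v)) else 0)) =
      ∑ y, A x y * (f a (φ y) - f (φ x) (φ y)) := by
    rw [Finset.sum_comm]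
    simp
  have h2 : (∑ u, ∑ v, (if v = x then A x u * (f a (φ u) - f (φ x) (φ u)) else 0)) =
      ∑ y, A x y * (f a (φ y) - f (φ x) (φ y)) := by
    simp
  rw [h1, h2]
  ring

theorem L_update (A : α → α → ZMod 3) (f : V → V → ZMod 3) (φ : α → V) (x y : α) (hxy : x ≠ y)
    (a b : V) :
    L A f (update φ y b) x a = L A f φ x a + 2 * A x y * D f a (φ x) b (φ y) := by
  have key : ∀ z, A x z * (f a (update φ y b z) - f (update φ y b x) (update φ y b z)) =
      A x z * (f a (φ z) - f (φ x) (φ z)) +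
        (if z = y then A x y * D f a (φ x) b (φ y) else 0) := by
    intro z
    rw [update_of_ne hxy]
    by_cases hz : z = y
    · subst hz; simp only [update_self, if_true, D]; ring
    · simp only [update_of_ne hz, if_neg hz]; ring
  unfold L
  simp only [key, Finset.sum_add_distrib]
  simp
  ring

theorem three_zero : (3 : ZMod 3) = 0 := by decide

theorem sq_one : ∀ t : ZMod 3, t ≠ 0 → t ^ 2 = 1 := by decide

/-- the algebra of the fourfold difference. -/
theorem alg4 (C L0 L1 L2 L3 M01 M02 M03 M12 M13 M23 : ZMod 3)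
    (h0000 : C ^ 2 = 1)
    (h1000 : (C + L0) ^ 2 = 1)
    (h0100 : (C + L1) ^ 2 = 1)
    (h0010 : (C + L2) ^ 2 = 1)
    (h0001 : (C + L3) ^ 2 = 1)
    (h1100 : (C + L0 + L1 + M01) ^ 2 = 1)
    (h1010 : (C + L0 + L2 + M02) ^ 2 = 1)
    (h1001 : (C + L0 + L3 + M03) ^ 2 = 1)
    (h0110 : (C + L1 + L2 + M12) ^ 2 = 1)
    (h0101 : (C + L1 + L3 + M13) ^ 2 = 1)
    (h0011 : (C + L2 + L3 + M23) ^ 2 = 1)
    (h1110 : (C + L0 + L1 + L2 + M01 + M02 + M12) ^ 2 = 1)
    (h1101 : (C + L0 + L1 + L3 + M01 + M03 + M13) ^ 2 = 1)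
    (h1011 : (C + L0 + L2 + L3 + M02 + M03 + M23) ^ 2 = 1)
    (h0111 : (C + L1 + L2 + L3 + M12 + M13 + M23) ^ 2 = 1)
    (h1111 : (C + L0 + L1 + L2 + L3 + M01 + M02 + M03 + M12 + M13 + M23) ^ 2 = 1) :
    M01 * M23 + M02 * M13 + M03 * M12 = 0 := by
  have h3 := three_zero
  linear_combination 2 * (h0000 - h1000 - h0100 - h0010 - h0001 + h1100 + h1010 + h1001 + h0110
    + h0101 + h0011 - h1110 - h1101 - h1011 - h0111 + h1111)
    - (M01 * M23 + M02 * M13 + M03 * M12) * h3

theorem update_inj {φ : α → V} (hφ : Injective φ) (x : α) (a : V) (ha : ∀ y, φ y ≠ a) :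
    Injective (update φ x a) := by
  intro u v h
  by_cases hu : u = x
  · by_cases hv : v = x
    · rw [hu, hv]
    · subst hu
      rw [update_self, update_of_ne hv] at h
      exact absurd h.symm (ha v)
  · by_cases hv : v = x
    · subst hv
      rw [update_self, update_of_ne hu] at h
      exact absurd h (ha u)
    · rw [update_of_ne hu, update_of_ne hv] at h
      exact hφ h

theorem update_avoid {φ : α → V} (x : α) (a b : V) (hb : ∀ y, φ y ≠ b) (hab : a ≠ b) :
    ∀ y, update φ x a y ≠ b := by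
  intro y
  by_cases hy : y = x
  · subst hy; rw [update_self]; exact hab
  · rw [update_of_ne hy]; exact hb y

/-- the hafnian relation, for a given base map. -/
theorem haf_base (A : α → α → ZMod 3) (f : V → V → ZMod 3) (hA : ∀ x y, A x y = A y x)
    (hA0 : ∀ x, A x x = 0) (hf : ∀ u v, f u v = f v u)
    (bad : ∀ φ : α → V, Injective φ → T A f φ ≠ 0)
    (φ : α → V) (hφ : Injective φ) (x0 x1 x2 x3 : α) (hx : [x0, x1, x2, x3].Nodup)
    (a0 a1 a2 a3 : V) (ha : [a0, a1, a2, a3].Nodup)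
    (h0 : ∀ y, φ y ≠ a0) (h1 : ∀ y, φ y ≠ a1) (h2 : ∀ y, φ y ≠ a2) (h3 : ∀ y, φ y ≠ a3) :
    A x0 x1 * A x2 x3 * (D f a0 (φ x0) a1 (φ x1) * D f a2 (φ x2) a3 (φ x3)) +
    A x0 x2 * A x1 x3 * (D f a0 (φ x0) a2 (φ x2) * D f a1 (φ x1) a3 (φ x3)) +
    A x0 x3 * A x1 x2 * (D f a0 (φ x0) a3 (φ x3) * D f a1 (φ x1) a2 (φ x2)) = 0 := by
  simp only [List.nodup_cons, List.mem_cons, List.not_mem_nil, or_false, not_or, List.nodup_nil,
    not_false_eq_true, and_true] at hx ha
  obtain ⟨⟨x01, x02, x03⟩, ⟨x12, x13⟩, x23⟩ := hx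
  obtain ⟨⟨a01, a02, a03⟩, ⟨a12, a13⟩, a23⟩ := ha
  have Dsym : ∀ a c b d, D f b d a c = D f a c b d := by
    intro a c b d; unfold D
    rw [hf b a, hf b c, hf d a, hf d c]; ring
  have sq : ∀ ψ : α → V, Injective ψ → (T A f ψ) ^ 2 = 1 := fun ψ h => sq_one _ (bad ψ h)
  have Tu := T_update A f hA hA0 hf
  have Lu := L_update A f
  -- injectivity of the 16 maps
  have i0 := update_inj hφ x0 a0 h0
  have i1 := update_inj hφ x1 a1 h1
  have i2 := update_inj hφ x2 a2 h2
  have i3 := update_inj hφ x3 a3 h3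
  have i01 := update_inj i0 x1 a1 (update_avoid x0 a0 a1 h1 a01)
  have i02 := update_inj i0 x2 a2 (update_avoid x0 a0 a2 h2 a02)
  have i03 := update_inj i0 x3 a3 (update_avoid x0 a0 a3 h3 a03)
  have i12 := update_inj i1 x2 a2 (update_avoid x1 a1 a2 h2 a12)
  have i13 := update_inj i1 x3 a3 (update_avoid x1 a1 a3 h3 a13)
  have i23 := update_inj i2 x3 a3 (update_avoid x2 a2 a3 h3 a23)
  have i012 := update_inj i01 x2 a2 (update_avoid x1 a1 a2 (update_avoid x0 a0 a2 h2 a02) a12)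
  have i013 := update_inj i01 x3 a3 (update_avoid x1 a1 a3 (update_avoid x0 a0 a3 h3 a03) a13)
  have i023 := update_inj i02 x3 a3 (update_avoid x2 a2 a3 (update_avoid x0 a0 a3 h3 a03) a23)
  have i123 := update_inj i12 x3 a3 (update_avoid x2 a2 a3 (update_avoid x1 a1 a3 h3 a13) a23)
  have i0123 := update_inj i012 x3 a3 (update_avoid x2 a2 a3
    (update_avoid x1 a1 a3 (update_avoid x0 a0 a3 h3 a03) a13) a23)
  have e0 := sq _ hφ
  have e_0 := sq _ i0
  have e_1 := sq _ i1
  have e_2 := sq _ i2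
  have e_3 := sq _ i3
  have e_01 := sq _ i01
  have e_02 := sq _ i02
  have e_03 := sq _ i03
  have e_12 := sq _ i12
  have e_13 := sq _ i13
  have e_23 := sq _ i23
  have e_012 := sq _ i012
  have e_013 := sq _ i013
  have e_023 := sq _ i023
  have e_123 := sq _ i123
  have e_0123 := sq _ i0123
  have u10 : ∀ b, update φ x0 b x1 = φ x1 := fun b => update_of_ne (Ne.symm x01) b φ
  have u20 : ∀ b, update φ x0 b x2 = φ x2 := fun b => update_of_ne (Ne.symm x02) b φ
  have u30 : ∀ b, update φ x0 b x3 = φ x3 := fun b => update_of_ne (Ne.symm x03) b φ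
  have u21 : ∀ (ψ : α → V) b, update ψ x1 b x2 = ψ x2 := fun ψ b => update_of_ne (Ne.symm x12) b ψ
  have u31 : ∀ (ψ : α → V) b, update ψ x1 b x3 = ψ x3 := fun ψ b => update_of_ne (Ne.symm x13) b ψ
  have u32 : ∀ (ψ : α → V) b, update ψ x2 b x3 = ψ x3 := fun ψ b => update_of_ne (Ne.symm x23) b ψ
  simp only [Tu, Lu _ _ _ (Ne.symm x01), Lu _ _ _ (Ne.symm x02), Lu _ _ _ (Ne.symm x03),
    Lu _ _ _ (Ne.symm x12), Lu _ _ _ (Ne.symm x13), Lu _ _ _ (Ne.symm x23), u10, u20, u30, u21,
    u31, u32] at e0 e_0 e_1 e_2 e_3 e_01 e_02 e_03 e_12 e_13 e_23 e_012 e_013 e_023 e_123 e_0123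
  have fin := alg4 (T A f φ) (L A f φ x0 a0) (L A f φ x1 a1) (L A f φ x2 a2) (L A f φ x3 a3)
    (2 * A x1 x0 * D f a1 (φ x1) a0 (φ x0)) (2 * A x2 x0 * D f a2 (φ x2) a0 (φ x0))
    (2 * A x3 x0 * D f a3 (φ x3) a0 (φ x0)) (2 * A x2 x1 * D f a2 (φ x2) a1 (φ x1))
    (2 * A x3 x1 * D f a3 (φ x3) a1 (φ x1)) (2 * A x3 x2 * D f a3 (φ x3) a2 (φ x2))
    e0 e_0 e_1 e_2 e_3
    (by rw [← e_01]; ring) (by rw [← e_02]; ring) (by rw [← e_03]; ring) (by rw [← e_12]; ring)
    (by rw [← e_13]; ring) (by rw [← e_23]; ring) (by rw [← e_012]; ring) (by rw [← e_013]; ring)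
    (by rw [← e_023]; ring) (by rw [← e_123]; ring) (by rw [← e_0123]; ring)
  rw [hA x1 x0, hA x2 x0, hA x3 x0, hA x2 x1, hA x3 x1, hA x3 x2, Dsym a0 (φ x0) a1 (φ x1),
    Dsym a0 (φ x0) a2 (φ x2), Dsym a0 (φ x0) a3 (φ x3), Dsym a1 (φ x1) a2 (φ x2),
    Dsym a1 (φ x1) a3 (φ x3), Dsym a2 (φ x2) a3 (φ x3)] at fin
  have h3' := three_zero
  linear_combination fin - (A x0 x1 * A x2 x3 * (D f a0 (φ x0) a1 (φ x1) * D f a2 (φ x2) a3 (φ x3)) +
    A x0 x2 * A x1 x3 * (D f a0 (φ x0) a2 (φ x2) * D f a1 (φ x1) a3 (φ x3)) +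
    A x0 x3 * A x1 x2 * (D f a0 (φ x0) a3 (φ x3) * D f a1 (φ x1) a2 (φ x2))) * h3'

variable [Fintype V]

/-- the hafnian relation. -/
theorem haf (A : α → α → ZMod 3) (f : V → V → ZMod 3) (hA : ∀ x y, A x y = A y x)
    (hA0 : ∀ x, A x x = 0) (hf : ∀ u v, f u v = f v u)
    (bad : ∀ φ : α → V, Injective φ → T A f φ ≠ 0)
    (hc : Fintype.card α + 4 ≤ Fintype.card V)
    (x0 x1 x2 x3 : α) (hx : [x0, x1, x2, x3].Nodup)
    (a0 c0 a1 c1 a2 c2 a3 c3 : V) (ha : [a0, c0, a1, c1, a2, c2, a3, c3].Nodup) :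
    A x0 x1 * A x2 x3 * (D f a0 c0 a1 c1 * D f a2 c2 a3 c3) +
    A x0 x2 * A x1 x3 * (D f a0 c0 a2 c2 * D f a1 c1 a3 c3) +
    A x0 x3 * A x1 x2 * (D f a0 c0 a3 c3 * D f a1 c1 a2 c2) = 0 := by
  classical
  have hx' := hx
  simp only [List.nodup_cons, List.mem_cons, List.not_mem_nil, or_false, not_or, List.nodup_nil,
    not_false_eq_true, and_true] at hx' ha
  obtain ⟨⟨x01, x02, x03⟩, ⟨x12, x13⟩, x23⟩ := hx'
  obtain ⟨⟨n1, n2, n3, n4, n5, n6, n7⟩, ⟨n8, n9, n10, n11, n12, n13⟩, ⟨n14, n15, n16, n17, n18⟩,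
    ⟨n19, n20, n21, n22⟩, ⟨n23, n24, n25⟩, ⟨n26, n27⟩, n28⟩ := ha
  let g : α → V := fun x => if x = x0 then c0 else if x = x1 then c1 else if x = x2 then c2 else c3
  have g0 : g x0 = c0 := by simp [g]
  have g1 : g x1 = c1 := by simp [g, Ne.symm x01]
  have g2 : g x2 = c2 := by simp [g, Ne.symm x02, Ne.symm x12]
  have g3 : g x3 = c3 := by simp [g, Ne.symm x03, Ne.symm x13, Ne.symm x23]
  have hcc : ({c0, c1, c2, c3} : Finset V).card = 4 := by
    rw [Finset.card_insert_of_notMem (by simp [*]), Finset.card_insert_of_notMem (by simp [*]),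
      Finset.card_insert_of_notMem (by simp [*]), Finset.card_singleton]
  have haa : ({a0, a1, a2, a3} : Finset V).card = 4 := by
    rw [Finset.card_insert_of_notMem (by simp [*]), Finset.card_insert_of_notMem (by simp [*]),
      Finset.card_insert_of_notMem (by simp [*]), Finset.card_singleton]
  have hxx : ({x0, x1, x2, x3} : Finset α).card = 4 := by
    rw [Finset.card_insert_of_notMem (by simp [*]), Finset.card_insert_of_notMem (by simp [*]),
      Finset.card_insert_of_notMem (by simp [*]), Finset.card_singleton]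
  have hα : 4 ≤ Fintype.card α := by
    rw [← hxx]; exact Finset.card_le_univ _
  have hsub : ({c0, c1, c2, c3} : Finset V) ⊆ ({a0, a1, a2, a3} : Finset V)ᶜ := by
    intro v hv
    simp only [Finset.mem_insert, Finset.mem_singleton] at hv
    simp only [Finset.mem_compl, Finset.mem_insert, Finset.mem_singleton]
    rcases hv with rfl | rfl | rfl | rfl <;> tauto
  obtain ⟨t, ht1, ht2, ht3⟩ := Finset.exists_subsuperset_card_eq (n := Fintype.card α) hsub
    (by rw [hcc]; exact hα) (by rw [Finset.card_compl, haa]; omega)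
  obtain ⟨e, he⟩ := Finset.exists_equiv_extend_of_card_eq (s := {x0, x1, x2, x3}) (f := g)
    ht3.symm (by
      intro v hv
      simp only [Finset.mem_image, Finset.mem_insert, Finset.mem_singleton] at hv
      obtain ⟨x, hx, rfl⟩ := hv
      apply ht1
      rcases hx with rfl | rfl | rfl | rfl
      · rw [g0]; simp
      · rw [g1]; simp
      · rw [g2]; simp
      · rw [g3]; simp) (by
      intro x hx y hy hxy
      simp only [Finset.coe_insert, Finset.coe_singleton, Set.mem_insert_iff,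
        Set.mem_singleton_iff] at hx hy
      rcases hx with rfl | rfl | rfl | rfl <;> rcases hy with rfl | rfl | rfl | rfl <;>
        simp only [g0, g1, g2, g3] at hxy <;> first | rfl | (exfalso; tauto))
  have hφ : Injective (fun x => (e x : V)) := Subtype.val_injective.comp e.injective
  have p0 : (e x0 : V) = c0 := by rw [he x0 (by simp), g0]
  have p1 : (e x1 : V) = c1 := by rw [he x1 (by simp), g1]
  have p2 : (e x2 : V) = c2 := by rw [he x2 (by simp), g2]
  have p3 : (e x3 : V) = c3 := by rw [he x3 (by simp), g3]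
  have hav : ∀ y, (e y : V) ∉ ({a0, a1, a2, a3} : Finset V) := by
    intro y
    have := ht2 (e y).2
    rwa [Finset.mem_compl] at this
  simp only [Finset.mem_insert, Finset.mem_singleton, not_or] at hav
  have := haf_base A f hA hA0 hf bad (fun x => (e x : V)) hφ x0 x1 x2 x3 hx a0 a1 a2 a3
    (by simp; tauto) (fun y => (hav y).1) (fun y => (hav y).2.1) (fun y => (hav y).2.2.1)
    (fun y => (hav y).2.2.2)
  simp only [p0, p1, p2, p3] at this
  exact this

end H717.Z3
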