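import Pool.Agent.H717.Z3.Srch

set_option autoImplicit false
set_option linter.unusedSectionVars false
set_option linter.unusedSimpArgs false

/-! Zero sets for the rank two form, in the two residue classes. -/

namespace H717.Z3

open Finset Function

variable {V : Type*} [DecidableEq V]

theorem sum_toFinset_map {β : Type*} [AddCommMonoid β] (l : List V) (hl : l.Nodup) (g : V → β) :
    ∑ u ∈ l.toFinset, g u = (l.map g).sum := List.sum_toFinset g hl

theorem ell_fiber_card : ∀ (δ : Fin 4) (e : ZMod 3),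
    (Finset.univ.filter (fun u : F2 => ell δ u = e)).card = 3 := by decide

/-- three vertices with equal vectors. -/
theorem three_equal {X : Finset V} {v : V → F2} (hH : HH X v) (hX : 10 ≤ X.card) :
    ∃ a ∈ X, ∃ b ∈ X, ∃ c ∈ X, a ≠ b ∧ a ≠ c ∧ b ≠ c ∧ v a = v b ∧ v a = v c := by
  classical
  rcases structure_types hH (by omega) with ⟨δ, e, w, h⟩ | ⟨a, T, hT, h⟩
  · have hcard : (Finset.univ.filter (fun u : F2 => ell δ u = e)).card * 2 < (X.erase w).card := by
      rw [ell_fiber_card]
      have := Finset.pred_card_le_card_erase (s := X) (a := w)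
      omega
    obtain ⟨y, -, hy⟩ := Finset.exists_lt_card_fiber_of_mul_lt_card_of_maps_to (f := v)
      (s := X.erase w) (t := Finset.univ.filter (fun u : F2 => ell δ u = e)) (n := 2) (by
        intro x hx
        rw [Finset.mem_erase] at hx
        simp [h x hx.2 hx.1]) hcard
    obtain ⟨a, ha, b, hb, c, hc, h1, h2, h3⟩ := Finset.two_lt_card.mp hy
    simp only [Finset.mem_filter, Finset.mem_erase] at ha hb hc
    exact ⟨a, ha.1.2, b, hb.1.2, c, hc.1.2, h1, h2, h3, by rw [ha.2, hb.2], by rw [ha.2, hc.2]⟩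
  · have hcard : 2 < (X \ T).card := by
      have := Finset.le_card_sdiff T X
      omega
    obtain ⟨x, hx, y, hy, z, hz, h1, h2, h3⟩ := Finset.two_lt_card.mp hcard
    rw [Finset.mem_sdiff] at hx hy hz
    exact ⟨x, hx.1, y, hy.1, z, hz.1, h1, h2, h3, by rw [h x hx.1 hx.2, h y hy.1 hy.2],
      by rw [h x hx.1 hx.2, h z hz.1 hz.2]⟩

theorem sum_insert3 {β : Type*} [AddCommMonoid β] {U : Finset V} {a b c : V} (g : V → β)
    (hab : a ≠ b) (hac : a ≠ c) (hbc : b ≠ c) (ha : a ∉ U) (hb : b ∉ U) (hc : c ∉ U) :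
    ∑ u ∈ insert a (insert b (insert c U)), g u = g a + (g b + (g c + ∑ u ∈ U, g u)) := by
  rw [Finset.sum_insert (by simp [hab, hac, ha]), Finset.sum_insert (by simp [hbc, hb]),
    Finset.sum_insert hc]

theorem card_insert3 {U : Finset V} {a b c : V}
    (hab : a ≠ b) (hac : a ≠ c) (hbc : b ≠ c) (ha : a ∉ U) (hb : b ∉ U) (hc : c ∉ U) :
    (insert a (insert b (insert c U))).card = U.card + 3 := by
  rw [Finset.card_insert_of_notMem (by simp [hab, hac, ha]),
    Finset.card_insert_of_notMem (by simp [hbc, hb]), Finset.card_insert_of_notMem hc]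

theorem card_sdiff3 {X : Finset V} {a b c : V}
    (hab : a ≠ b) (hac : a ≠ c) (hbc : b ≠ c) (ha : a ∈ X) (hb : b ∈ X) (hc : c ∈ X) :
    (X \ {a, b, c}).card = X.card - 3 := by
  rw [Finset.card_sdiff_of_subset (by
    intro x hx
    simp only [Finset.mem_insert, Finset.mem_singleton] at hx
    rcases hx with rfl | rfl | rfl <;> assumption)]
  congr 1
  rw [Finset.card_insert_of_notMem (by simp [hab, hac]),
    Finset.card_insert_of_notMem (by simp [hbc]), Finset.card_singleton]

/-- the class one modulo three. -/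
theorem one_mod (v : V → F2) : ∀ (k : ℕ), 1 ≤ k → ∀ X : Finset V, X.card = 3 * k + 4 → HH X v →
    ∃ U ⊆ X, U.card = 3 * k + 1 ∧
      (∑ u ∈ U, (v u).1) * (∑ u ∈ U, (v u).2) - ∑ u ∈ U, (v u).1 * (v u).2 = 0 := by
  intro k hk
  induction k, hk using Nat.le_induction with
  | base =>
    intro X hX hH
    obtain ⟨l, h1, h2, h3, h4⟩ := find 3 7 test4 run4 X hX v
    refine ⟨l.toFinset, fun x hx => h2 x (List.mem_toFinset.mp hx), ?_, ?_⟩
    · rw [List.toFinset_card_of_nodup h1, h3]
    · rw [sum_toFinset_map l h1, sum_toFinset_map l h1, sum_toFinset_map l h1]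
      unfold test4 at h4
      rw [Bool.not_eq_false', decide_eq_true_eq] at h4
      simpa only [List.map_map, Function.comp_def] using h4
  | succ k hk ih =>
    intro X hX hH
    obtain ⟨a, ha, b, hb, c, hc, hab, hac, hbc, eb, ec⟩ := three_equal hH (by omega)
    obtain ⟨U, hU, hUc, hS⟩ := ih (X \ {a, b, c}) (by rw [card_sdiff3 hab hac hbc ha hb hc]; omega)
      (hH.mono Finset.sdiff_subset)
    have na : a ∉ U := fun h => by have := hU h; simp at this
    have nb : b ∉ U := fun h => by have := hU h; simp at this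
    have nc : c ∉ U := fun h => by have := hU h; simp at this
    refine ⟨insert a (insert b (insert c U)), ?_, ?_, ?_⟩
    · intro x hx
      simp only [Finset.mem_insert] at hx
      rcases hx with rfl | rfl | rfl | hx
      · exact ha
      · exact hb
      · exact hc
      · exact (Finset.mem_sdiff.mp (hU hx)).1
    · rw [card_insert3 hab hac hbc na nb nc, hUc]; ring
    · rw [sum_insert3 _ hab hac hbc na nb nc, sum_insert3 _ hab hac hbc na nb nc,
        sum_insert3 _ hab hac hbc na nb nc, ← eb, ← ec]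
      have h3 := three_zero
      linear_combination hS + (3 * (v a).1 * (v a).2 + (v a).1 * (∑ u ∈ U, (v u).2) +
        (v a).2 * (∑ u ∈ U, (v u).1) - (v a).1 * (v a).2) * h3

/-- a zero-sum triple among nine vectors. -/
theorem egz9 (X : Finset V) (hX : 9 ≤ X.card) (v : V → F2) :
    ∃ a ∈ X, ∃ b ∈ X, ∃ c ∈ X, a ≠ b ∧ a ≠ c ∧ b ≠ c ∧
      (v a).1 + ((v b).1 + (v c).1) = 0 ∧ (v a).2 + ((v b).2 + (v c).2) = 0 := by
  obtain ⟨Y, hY, hYc⟩ := Finset.exists_subset_card_eq hX
  obtain ⟨l, h1, h2, h3, h4⟩ := find 2 9 testE runE Y hYc v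
  match l, h1, h2, h3, h4 with
  | [a, b, c], h1, h2, h3, h4 =>
    simp only [List.nodup_cons, List.mem_cons, List.not_mem_nil, or_false, not_or,
            List.nodup_nil, not_false_eq_true, and_true] at h1
    unfold testE at h4
    rw [Bool.not_eq_false', decide_eq_true_eq] at h4
    simp only [List.map_cons, List.map_nil, List.sum_cons, List.sum_nil, add_zero] at h4
    exact ⟨a, hY (h2 a (by simp)), b, hY (h2 b (by simp)), c, hY (h2 c (by simp)), h1.1.1, h1.1.2,
      h1.2, h4.1, h4.2⟩

/-- the rank one case. -/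
theorem rank_one (v : V → F2) (ε : ZMod 3) : ∀ (k : ℕ), 1 ≤ k → ∀ X : Finset V,
    X.card = 3 * k + 3 →
    ∃ U ⊆ X, U.card = 3 * k ∧ (∑ u ∈ U, (v u).1) + ε * (∑ u ∈ U, (v u).2) ^ 2 = 0 := by
  intro k hk
  induction k, hk using Nat.le_induction with
  | base =>
    intro X hX
    obtain ⟨l, h1, h2, h3, h4⟩ := find 2 6 (testR ε) (runR ε) X hX v
    refine ⟨l.toFinset, fun x hx => h2 x (List.mem_toFinset.mp hx), ?_, ?_⟩
    · rw [List.toFinset_card_of_nodup h1, h3]
    · rw [sum_toFinset_map l h1, sum_toFinset_map l h1]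
      unfold testR at h4
      rw [Bool.not_eq_false', decide_eq_true_eq] at h4
      simpa only [List.map_map, Function.comp_def] using h4
  | succ k hk ih =>
    intro X hX
    obtain ⟨a, ha, b, hb, c, hc, hab, hac, hbc, e1, e2⟩ := egz9 X (by omega) v
    obtain ⟨U, hU, hUc, hS⟩ := ih (X \ {a, b, c}) (by rw [card_sdiff3 hab hac hbc ha hb hc]; omega)
    have na : a ∉ U := fun h => by have := hU h; simp at this
    have nb : b ∉ U := fun h => by have := hU h; simp at this
    have nc : c ∉ U := fun h => by have := hU h; simp at this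
    refine ⟨insert a (insert b (insert c U)), ?_, ?_, ?_⟩
    · intro x hx
      simp only [Finset.mem_insert] at hx
      rcases hx with rfl | rfl | rfl | hx
      · exact ha
      · exact hb
      · exact hc
      · exact (Finset.mem_sdiff.mp (hU hx)).1
    · rw [card_insert3 hab hac hbc na nb nc, hUc]; ring
    · rw [sum_insert3 _ hab hac hbc na nb nc, sum_insert3 _ hab hac hbc na nb nc]
      have q1 : (v a).1 + ((v b).1 + ((v c).1 + ∑ u ∈ U, (v u).1)) = ∑ u ∈ U, (v u).1 := by
        linear_combination e1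
      have q2 : (v a).2 + ((v b).2 + ((v c).2 + ∑ u ∈ U, (v u).2)) = ∑ u ∈ U, (v u).2 := by
        linear_combination e2
      rw [q1, q2]; exact hS

end H717.Z3
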