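import Pool.Agent.H717.Z3.Cplt

set_option autoImplicit false
set_option linter.unusedSectionVars false
set_option linter.unusedSimpArgs false

/-! Zero sets for the rank two form, class zero modulo three. -/

namespace H717.Z3

open Finset Function

variable {V : Type*} [DecidableEq V]

theorem nsmul3 (k : ℕ) (c : ZMod 3) : (3 * k) • c = 0 := by
  rw [nsmul_eq_mul]; push_cast
  rw [show (3 : ZMod 3) = 0 from three_zero]; ring

theorem sum_const3 {U : Finset V} {k : ℕ} (hU : U.card = 3 * k) (c : ZMod 3) :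
    ∑ _u ∈ U, c = 0 := by
  rw [Finset.sum_const, hU, nsmul3]

theorem sum_sub3 {U : Finset V} {k : ℕ} (hU : U.card = 3 * k) (g : V → ZMod 3) (c : ZMod 3) :
    ∑ u ∈ U, (g u - c) = ∑ u ∈ U, g u := by
  rw [Finset.sum_sub_distrib, sum_const3 hU, sub_zero]

theorem zero_sum_W (k : ℕ) (W : Finset V) (hW : 3 * k + 2 ≤ W.card) (w : V → ZMod 3) :
    ∃ U ⊆ W, U.card = 3 * k ∧ ∑ u ∈ U, w u = 0 := by
  classical
  obtain ⟨φ, h1, h2, h3⟩ := lemP (α := Fin (3 * k)) (fun _ => (1 : ZMod 3)) (by
    simp only [Finset.sum_const, Finset.card_univ, Fintype.card_fin]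
    exact nsmul3 k 1) W (by simpa using hW) w
  refine ⟨Finset.univ.image φ, ?_, ?_, ?_⟩
  · intro x hx
    obtain ⟨y, -, rfl⟩ := Finset.mem_image.mp hx
    exact h2 y
  · rw [Finset.card_image_of_injective _ h1]; simp
  · rw [Finset.sum_image (fun x _ y _ h => h1 h)]
    simpa using h3

theorem sup_one {X U : Finset V} (hU : U ⊆ X) (r : V → ZMod 3) (w0 : V)
    (h : ∀ x ∈ X, x ≠ w0 → r x = 0) : ∑ u ∈ U, (r u) ^ 2 = (∑ u ∈ U, r u) ^ 2 := by
  by_cases hw : w0 ∈ U
  · rw [Finset.sum_eq_single_of_mem w0 hw (fun b hb hne => by rw [h b (hU hb) hne]; ring),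
      Finset.sum_eq_single_of_mem w0 hw (fun b hb hne => h b (hU hb) hne)]
  · rw [Finset.sum_eq_zero (fun b hb => by
      rw [h b (hU hb) (fun e => hw (e ▸ hb))]; ring),
      Finset.sum_eq_zero (fun b hb => h b (hU hb) (fun e => hw (e ▸ hb)))]
    ring

/-- the class zero modulo three, types on a line. -/
theorem zero_mod_line (v : V → F2) (w : V → ZMod 3) (k : ℕ) (hk : 1 ≤ k) (X : Finset V)
    (hX : X.card = 3 * k + 3) (hL : OnLine X v) :
    ∃ U ⊆ X, U.card = 3 * k ∧
      (∑ u ∈ U, w u) + (∑ u ∈ U, (v u).1) * (∑ u ∈ U, (v u).2) = 0 := by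
  obtain ⟨δ, e, w0, h⟩ := hL
  have h3 := three_zero
  have hW : 3 * k + 2 ≤ (X.erase w0).card := by
    have := Finset.pred_card_le_card_erase (s := X) (a := w0)
    omega
  fin_cases δ
  · -- second coordinate constant
    obtain ⟨U, hU, hUc, hs⟩ := zero_sum_W k _ hW w
    refine ⟨U, hU.trans (Finset.erase_subset _ _), hUc, ?_⟩
    have : ∑ u ∈ U, (v u).2 = ∑ _u ∈ U, e := Finset.sum_congr rfl fun u hu => by
      have hu' := Finset.mem_erase.mp (hU hu)
      exact h u hu'.2 hu'.1
    rw [this, sum_const3 hUc, hs]; ring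
  · -- difference constant
    obtain ⟨U, hU, hUc, hs⟩ := rank_one
      (fun u => (w u - ((v u).2 - ((v u).1 - e)) ^ 2, (v u).1 - ((v u).2 - ((v u).1 - e)))) 1 k hk X hX
    refine ⟨U, hU, hUc, ?_⟩
    have hr := sup_one hU (fun u => (v u).2 - ((v u).1 - e)) w0 (by
      intro x hx hne
      have := h x hx hne
      have h' : (v x).1 - (v x).2 = e := this
      linear_combination -h')
    simp only [Finset.sum_sub_distrib] at hs hr
    rw [sum_const3 hUc] at hs hr
    linear_combination hs + hr - ((∑ u ∈ U, (v u).1) ^ 2 - (∑ u ∈ U, (v u).1) * (∑ u ∈ U, (v u).2)) * h3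
  · -- sum constant
    obtain ⟨U, hU, hUc, hs⟩ := rank_one
      (fun u => (w u + ((v u).2 - (e - (v u).1)) ^ 2, (v u).1 + ((v u).2 - (e - (v u).1)))) (-1) k hk X hX
    refine ⟨U, hU, hUc, ?_⟩
    have hr := sup_one hU (fun u => (v u).2 - (e - (v u).1)) w0 (by
      intro x hx hne
      have := h x hx hne
      have h' : (v x).1 + (v x).2 = e := this
      linear_combination h')
    simp only [Finset.sum_sub_distrib, Finset.sum_add_distrib] at hs hr
    rw [sum_const3 hUc] at hs hr
    linear_combination hs - hr + ((∑ u ∈ U, (v u).1) ^ 2 + (∑ u ∈ U, (v u).1) * (∑ u ∈ U, (v u).2)) * h3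
  · obtain ⟨U, hU, hUc, hs⟩ := zero_sum_W k _ hW w
    refine ⟨U, hU.trans (Finset.erase_subset _ _), hUc, ?_⟩
    have : ∑ u ∈ U, (v u).1 = ∑ _u ∈ U, e := Finset.sum_congr rfl fun u hu => by
      have hu' := Finset.mem_erase.mp (hU hu)
      exact h u hu'.2 hu'.1
    rw [this, sum_const3 hUc, hs]; ring

theorem swap_card {U : Finset V} {a b : V} (ha : a ∈ U) (hb : b ∉ U) :
    (insert b (U.erase a)).card = U.card := by
  rw [Finset.card_insert_of_notMem (fun h => hb (Finset.mem_of_mem_erase h)),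
    Finset.card_erase_of_mem ha]
  have : 0 < U.card := Finset.card_pos.mpr ⟨a, ha⟩
  omega

theorem swap_sum {U : Finset V} {a b : V} (ha : a ∈ U) (hb : b ∉ U) (g : V → ZMod 3) :
    ∑ u ∈ insert b (U.erase a), g u = ∑ u ∈ U, g u + (g b - g a) := by
  rw [Finset.sum_insert (fun h => hb (Finset.mem_of_mem_erase h))]
  have := Finset.add_sum_erase U g ha
  rw [← this]; ring

theorem swap_sub {U X : Finset V} {a b : V} (hU : U ⊆ X) (hb : b ∈ X) :
    insert b (U.erase a) ⊆ X := by
  intro x hx
  rw [Finset.mem_insert] at hx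
  rcases hx with rfl | hx
  · exact hb
  · exact hU (Finset.mem_of_mem_erase hx)

theorem forced : ∀ s ω : ZMod 3, ω ≠ 0 → s ≠ 0 → s + ω ≠ 0 → s = ω := by decide

theorem alg_four (L0 L1 L2 L3 M01 M02 M03 M12 M13 M23 : ZMod 3)
    (h1000 : (L0) ^ 2 = 1)
    (h0100 : (L1) ^ 2 = 1)
    (h0010 : (L2) ^ 2 = 1)
    (h0001 : (L3) ^ 2 = 1)
    (h1100 : (L0 + L1 + M01) ^ 2 = 1)
    (h1010 : (L0 + L2 + M02) ^ 2 = 1)
    (h1001 : (L0 + L3 + M03) ^ 2 = 1)
    (h0110 : (L1 + L2 + M12) ^ 2 = 1)
    (h0101 : (L1 + L3 + M13) ^ 2 = 1)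
    (h0011 : (L2 + L3 + M23) ^ 2 = 1)
    (h1110 : (L0 + L1 + L2 + M01 + M02 + M12) ^ 2 = 1)
    (h1101 : (L0 + L1 + L3 + M01 + M03 + M13) ^ 2 = 1)
    (h1011 : (L0 + L2 + L3 + M02 + M03 + M23) ^ 2 = 1)
    (h0111 : (L1 + L2 + L3 + M12 + M13 + M23) ^ 2 = 1)
    (h1111 : (L0 + L1 + L2 + L3 + M01 + M02 + M03 + M12 + M13 + M23) ^ 2 = 1) :
    M01 * M23 + M02 * M13 + M03 * M12 = 1 := by
  have h3 := three_zero
  linear_combination 2 * (- h1000 - h0100 - h0010 - h0001 + h1100 + h1010 + h1001 + h0110
    + h0101 + h0011 - h1110 - h1101 - h1011 - h0111 + h1111)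
    - (M01 * M23 + M02 * M13 + M03 * M12 + 1) * h3

/-- the class zero modulo three, almost all vectors equal. -/
theorem zero_mod_const (v : V → F2) (w : V → ZMod 3) (k : ℕ) (hk : 2 ≤ k) (X : Finset V)
    (hX : X.card = 3 * k + 3) (hH : HH X v) (a : F2) (T : Finset V) (hT : T.card ≤ 4)
    (h : ∀ x ∈ X, x ∉ T → v x = a) :
    ∃ U ⊆ X, U.card = 3 * k ∧
      (∑ u ∈ U, w u) + (∑ u ∈ U, (v u).1) * (∑ u ∈ U, (v u).2) = 0 := by
  classical
  by_contra hcon
  push Not at hcon
  have h3 := three_zero
  -- step one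
  have hZc : 4 ≤ (X \ T).card := by
    have := Finset.le_card_sdiff T X
    omega
  obtain ⟨c, w1, hc⟩ : ∃ c : ZMod 3, ∃ w1 : V, ∀ u ∈ X \ T, u ≠ w1 → w u = c := by
    refine nearly_const (X \ T) hZc w ?_
    intro z1 hz1 z2 hz2 z3 hz3 z4 hz4 hnd
    by_contra hne
    push Not at hne
    obtain ⟨n1, n2⟩ := hne
    simp only [List.nodup_cons, List.mem_cons, List.not_mem_nil, or_false, not_or,
            List.nodup_nil, not_false_eq_true, and_true] at hnd
    obtain ⟨⟨z12, z13, z14⟩, ⟨z23, z24⟩, z34⟩ := hnd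
    rw [Finset.mem_sdiff] at hz1 hz2 hz3 hz4
    have vz1 := h z1 hz1.1 hz1.2
    have vz2 := h z2 hz2.1 hz2.2
    have vz3 := h z3 hz3.1 hz3.2
    have vz4 := h z4 hz4.1 hz4.2
    obtain ⟨U, hU1, hU2, hU3⟩ := Finset.exists_subsuperset_card_eq (s := {z1, z3})
      (t := X \ {z2, z4}) (n := 3 * k) (by
        intro x hx
        simp only [Finset.mem_insert, Finset.mem_singleton] at hx
        simp only [Finset.mem_sdiff, Finset.mem_insert, Finset.mem_singleton]
        rcases hx with rfl | rfl
        · exact ⟨hz1.1, by tauto⟩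
        · exact ⟨hz3.1, by tauto⟩)
      (by
        have : ({z1, z3} : Finset V).card ≤ 2 := Finset.card_le_two
        omega)
      (by
        have := Finset.le_card_sdiff ({z2, z4} : Finset V) X
        have h2 : ({z2, z4} : Finset V).card ≤ 2 := Finset.card_le_two
        omega)
    have m1 : z1 ∈ U := hU1 (by simp)
    have m3 : z3 ∈ U := hU1 (by simp)
    have m2 : z2 ∉ U := fun hh => by have := hU2 hh; simp at this
    have m4 : z4 ∉ U := fun hh => by have := hU2 hh; simp at this
    have hUX : U ⊆ X := hU2.trans Finset.sdiff_subset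
    have m3' : z3 ∈ insert z2 (U.erase z1) := by
      rw [Finset.mem_insert, Finset.mem_erase]; exact Or.inr ⟨Ne.symm z13, m3⟩
    have m4' : z4 ∉ insert z2 (U.erase z1) := by
      rw [Finset.mem_insert, Finset.mem_erase]
      rintro (e | e)
      · exact z24 e.symm
      · exact m4 e.2
    have s0 := hcon U hUX hU3
    have s1 := hcon _ (swap_sub hUX hz2.1) ((swap_card m1 m2).trans hU3)
    have s2 := hcon _ (swap_sub hUX hz4.1) ((swap_card m3 m4).trans hU3)
    have s3 := hcon _ (swap_sub (swap_sub hUX hz2.1) hz4.1)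
      ((swap_card m3' m4').trans ((swap_card m1 m2).trans hU3))
    rw [swap_sum m1 m2, swap_sum m1 m2, swap_sum m1 m2, vz1, vz2, sub_self, sub_self, add_zero,
      add_zero] at s1
    rw [swap_sum m3 m4, swap_sum m3 m4, swap_sum m3 m4, vz3, vz4, sub_self, sub_self, add_zero,
      add_zero] at s2
    rw [swap_sum m3' m4', swap_sum m3' m4', swap_sum m3' m4', swap_sum m1 m2, swap_sum m1 m2,
      swap_sum m1 m2, vz1, vz2, vz3, vz4, sub_self, sub_self, add_zero, add_zero, add_zero,
      add_zero] at s3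
    rcases cd2 ((∑ u ∈ U, w u) + (∑ u ∈ U, (v u).1) * (∑ u ∈ U, (v u).2)) (w z2 - w z1)
      (w z4 - w z3) (sub_ne_zero.mpr (Ne.symm n1)) (sub_ne_zero.mpr (Ne.symm n2)) with e | e | e | e
    · exact s0 e
    · exact s1 (by rw [← e]; ring)
    · exact s2 (by rw [← e]; ring)
    · exact s3 (by rw [← e]; ring)
  -- step two
  set Z0 := X.filter (fun x => v x = a ∧ w x = c) with hZ0
  have hZ0X : Z0 ⊆ X := Finset.filter_subset _ _
  have hcardY : (X \ Z0).card = 3 * k + 3 - Z0.card := by
    rw [Finset.card_sdiff_of_subset hZ0X, hX]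
  have hYsub : X \ Z0 ⊆ insert w1 T := by
    intro x hx
    rw [Finset.mem_sdiff, hZ0, Finset.mem_filter] at hx
    rw [Finset.mem_insert]
    by_contra hcon2
    push Not at hcon2
    exact hx.2 ⟨hx.1, h x hx.1 hcon2.2, hc x (Finset.mem_sdiff.mpr ⟨hx.1, hcon2.2⟩) hcon2.1⟩
  have hY5 : (X \ Z0).card ≤ 5 := by
    have h1 := Finset.card_le_card hYsub
    have h2 := Finset.card_insert_le w1 T
    omega
  have hσ : ∀ l : List V, l.Nodup → (∀ x ∈ l, x ∈ X \ Z0) → l.length ≤ 3 * k →
      3 * k ≤ Z0.card + l.length →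
      (l.map (fun u => w u - c)).sum + (l.map (fun u => (v u).1 - a.1)).sum *
        (l.map (fun u => (v u).2 - a.2)).sum ≠ 0 := by
    intro l hl hlY hlen hlen2
    obtain ⟨Z', hZ', hZ'c⟩ := Finset.exists_subset_card_eq (s := Z0) (n := 3 * k - l.length)
      (by omega)
    have hdisj : Disjoint l.toFinset Z' := by
      rw [Finset.disjoint_left]
      intro x hx hx'
      have := hlY x (List.mem_toFinset.mp hx)
      exact (Finset.mem_sdiff.mp this).2 (hZ' hx')
    have hUc : (l.toFinset ∪ Z').card = 3 * k := by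
      rw [Finset.card_union_of_disjoint hdisj, hZ'c, List.toFinset_card_of_nodup hl]
      omega
    have hUX : l.toFinset ∪ Z' ⊆ X := by
      intro x hx
      rw [Finset.mem_union] at hx
      rcases hx with hx | hx
      · exact (Finset.mem_sdiff.mp (hlY x (List.mem_toFinset.mp hx))).1
      · exact hZ0X (hZ' hx)
    have hs := hcon _ hUX hUc
    rw [← sum_sub3 hUc w c, ← sum_sub3 hUc (fun u => (v u).1) a.1,
      ← sum_sub3 hUc (fun u => (v u).2) a.2, Finset.sum_union hdisj, Finset.sum_union hdisj,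
      Finset.sum_union hdisj] at hs
    have z1 : ∑ x ∈ Z', (w x - c) = 0 := Finset.sum_eq_zero fun x hx => by
      have := (Finset.mem_filter.mp (hZ' hx)).2.2
      rw [this, sub_self]
    have z2 : ∑ x ∈ Z', ((v x).1 - a.1) = 0 := Finset.sum_eq_zero fun x hx => by
      have := (Finset.mem_filter.mp (hZ' hx)).2.1
      rw [this, sub_self]
    have z3 : ∑ x ∈ Z', ((v x).2 - a.2) = 0 := Finset.sum_eq_zero fun x hx => by
      have := (Finset.mem_filter.mp (hZ' hx)).2.1
      rw [this, sub_self]
    rw [z1, z2, z3, add_zero, add_zero, add_zero, sum_toFinset_map l hl, sum_toFinset_map l hl,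
      sum_toFinset_map l hl] at hs
    exact hs
  have hZ0k : Z0.card < 3 * k := by
    by_contra hge
    have := hσ [] (by simp) (by simp) (by simp) (by simpa using hge)
    simp at this
  -- zeros
  obtain ⟨Z4, hZ4, hZ4c⟩ := Finset.exists_subset_card_eq (s := Z0) (n := 4) (by omega)
  let ez := Z4.equivFinOfCardEq hZ4c
  let z : Fin 4 → V := fun i => (ez.symm i : V)
  have zinj : Injective z := Subtype.val_injective.comp ez.symm.injective
  have zmem : ∀ i, z i ∈ Z0 := fun i => hZ4 (ez.symm i).2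
  have zX : ∀ i, z i ∈ X := fun i => hZ0X (zmem i)
  have zv : ∀ i, v (z i) = a := fun i => (Finset.mem_filter.mp (zmem i)).2.1
  by_cases h4 : (X \ Z0).card = 4
  · let ey := (X \ Z0).equivFinOfCardEq h4
    let y : Fin 4 → V := fun i => (ey.symm i : V)
    have yinj : Injective y := Subtype.val_injective.comp ey.symm.injective
    have ymem : ∀ i, y i ∈ X \ Z0 := fun i => (ey.symm i).2
    have yz : ∀ i j, y i ≠ z j := fun i j e => (Finset.mem_sdiff.mp (ymem i)).2 (e ▸ zmem j)
    have hc' : Z0.card = 3 * k - 1 := by omega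
    have σ' : ∀ l : List (Fin 4), l.Nodup → 1 ≤ l.length → l.length ≤ 4 →
        ((l.map (fun i => w (y i) - c)).sum + (l.map (fun i => (v (y i)).1 - a.1)).sum *
        (l.map (fun i => (v (y i)).2 - a.2)).sum) ^ 2 = 1 := by
      intro l hl h1 h4
      apply sq_one
      have := hσ (l.map y) (hl.map yinj) (by
        intro x hx
        obtain ⟨i, -, rfl⟩ := List.mem_map.mp hx
        exact ymem i) (by rw [List.length_map]; omega) (by rw [List.length_map]; omega)
      simpa only [List.map_map, Function.comp_def] using this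
    have hh := hH (y 0) (Finset.mem_sdiff.mp (ymem 0)).1 (z 0) (zX 0) (y 1)
      (Finset.mem_sdiff.mp (ymem 1)).1 (z 1) (zX 1) (y 2) (Finset.mem_sdiff.mp (ymem 2)).1 (z 2)
      (zX 2) (y 3) (Finset.mem_sdiff.mp (ymem 3)).1 (z 3) (zX 3) (by
        have zy : ∀ i j, z i ≠ y j := fun i j => Ne.symm (yz j i)
        simp [yz, zy, yinj.eq_iff, zinj.eq_iff])
    rw [zv, zv, zv, zv] at hh
    have t0 := σ' [0] (by decide) (by simp) (by simp)
    have t1 := σ' [1] (by decide) (by simp) (by simp)
    have t2 := σ' [2] (by decide) (by simp) (by simp)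
    have t3 := σ' [3] (by decide) (by simp) (by simp)
    have t01 := σ' [0, 1] (by decide) (by simp) (by simp)
    have t02 := σ' [0, 2] (by decide) (by simp) (by simp)
    have t03 := σ' [0, 3] (by decide) (by simp) (by simp)
    have t12 := σ' [1, 2] (by decide) (by simp) (by simp)
    have t13 := σ' [1, 3] (by decide) (by simp) (by simp)
    have t23 := σ' [2, 3] (by decide) (by simp) (by simp)
    have t012 := σ' [0, 1, 2] (by decide) (by simp) (by simp)
    have t013 := σ' [0, 1, 3] (by decide) (by simp) (by simp)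
    have t023 := σ' [0, 2, 3] (by decide) (by simp) (by simp)
    have t123 := σ' [1, 2, 3] (by decide) (by simp) (by simp)
    have t0123 := σ' [0, 1, 2, 3] (by decide) (by simp) (by simp)
    simp only [List.map_cons, List.map_nil, List.sum_cons, List.sum_nil, add_zero] at t0 t1 t2 t3 t01 t02 t03 t12 t13 t23 t012 t013 t023 t123 t0123
    generalize w (y 0) - c = A0 at *
    generalize w (y 1) - c = A1 at *
    generalize w (y 2) - c = A2 at *
    generalize w (y 3) - c = A3 at *
    simp only [hfn, bil, Prod.fst_sub, Prod.snd_sub] at hh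
    generalize (v (y 0)).1 - a.1 = p0 at *
    generalize (v (y 1)).1 - a.1 = p1 at *
    generalize (v (y 2)).1 - a.1 = p2 at *
    generalize (v (y 3)).1 - a.1 = p3 at *
    generalize (v (y 0)).2 - a.2 = q0 at *
    generalize (v (y 1)).2 - a.2 = q1 at *
    generalize (v (y 2)).2 - a.2 = q2 at *
    generalize (v (y 3)).2 - a.2 = q3 at *
    have fin := alg_four (A0 + p0 * q0) (A1 + p1 * q1) (A2 + p2 * q2) (A3 + p3 * q3)
      (p0 * q1 + q0 * p1) (p0 * q2 + q0 * p2) (p0 * q3 + q0 * p3) (p1 * q2 + q1 * p2)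
      (p1 * q3 + q1 * p3) (p2 * q3 + q2 * p3) t0 t1 t2 t3
      (by rw [← t01]; ring) (by rw [← t02]; ring) (by rw [← t03]; ring) (by rw [← t12]; ring)
      (by rw [← t13]; ring) (by rw [← t23]; ring) (by rw [← t012]; ring) (by rw [← t013]; ring)
      (by rw [← t023]; ring) (by rw [← t123]; ring) (by rw [← t0123]; ring)
    rw [hh] at fin
    exact absurd fin (by decide)
  · have h5 : (X \ Z0).card = 5 := by omega
    have hw1T : w1 ∉ T := by
      intro hw
      rw [Finset.insert_eq_of_mem hw] at hYsub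
      have := Finset.card_le_card hYsub
      omega
    have hw1Y : w1 ∈ X \ Z0 := by
      by_contra hw
      have : X \ Z0 ⊆ T := by
        intro x hx
        have h1 := hYsub hx
        rw [Finset.mem_insert] at h1
        rcases h1 with rfl | h1
        · exact absurd hx hw
        · exact h1
      have := Finset.card_le_card this
      omega
    have hw1X : w1 ∈ X := (Finset.mem_sdiff.mp hw1Y).1
    have vw1 : v w1 = a := h w1 hw1X hw1T
    have ω0 : w w1 - c ≠ 0 := by
      intro e
      exact (Finset.mem_sdiff.mp hw1Y).2 (Finset.mem_filter.mpr ⟨hw1X, vw1, sub_eq_zero.mp e⟩)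
    have hy4 : ((X \ Z0).erase w1).card = 4 := by
      rw [Finset.card_erase_of_mem hw1Y, h5]
    let ey := ((X \ Z0).erase w1).equivFinOfCardEq hy4
    let y : Fin 4 → V := fun i => (ey.symm i : V)
    have yinj : Injective y := Subtype.val_injective.comp ey.symm.injective
    have ymem' : ∀ i, y i ∈ (X \ Z0).erase w1 := fun i => (ey.symm i).2
    have ymem : ∀ i, y i ∈ X \ Z0 := fun i => Finset.mem_of_mem_erase (ymem' i)
    have yw : ∀ i, y i ≠ w1 := fun i => Finset.ne_of_mem_erase (ymem' i)
    have hc' : Z0.card = 3 * k - 2 := by omega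
    have σ' : ∀ l : List (Fin 4), l.Nodup → 2 ≤ l.length → l.length ≤ 4 →
        ((l.map (fun i => w (y i) - c)).sum + (l.map (fun i => (v (y i)).1 - a.1)).sum *
        (l.map (fun i => (v (y i)).2 - a.2)).sum) = w w1 - c := by
      intro l hl h1 h4
      apply forced _ _ ω0
      · have := hσ (l.map y) (hl.map yinj) (by
          intro x hx
          obtain ⟨i, -, rfl⟩ := List.mem_map.mp hx
          exact ymem i) (by rw [List.length_map]; omega) (by rw [List.length_map]; omega)
        simpa only [List.map_map, Function.comp_def] using this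
      · have := hσ (w1 :: l.map y) (by
          rw [List.nodup_cons]
          refine ⟨?_, hl.map yinj⟩
          intro hx
          obtain ⟨i, -, hi⟩ := List.mem_map.mp hx
          exact yw i hi) (by
          intro x hx
          rw [List.mem_cons] at hx
          rcases hx with rfl | hx
          · exact hw1Y
          · obtain ⟨i, -, rfl⟩ := List.mem_map.mp hx
            exact ymem i) (by rw [List.length_cons, List.length_map]; omega)
          (by rw [List.length_cons, List.length_map]; omega)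
        simp only [List.map_cons, List.sum_cons, List.map_map, Function.comp_def, vw1, sub_self,
          zero_add] at this
        intro e
        apply this
        rw [← e]; ring
    have t01 := σ' [0, 1] (by decide) (by simp) (by simp)
    have t02 := σ' [0, 2] (by decide) (by simp) (by simp)
    have t03 := σ' [0, 3] (by decide) (by simp) (by simp)
    have t12 := σ' [1, 2] (by decide) (by simp) (by simp)
    have t13 := σ' [1, 3] (by decide) (by simp) (by simp)
    have t23 := σ' [2, 3] (by decide) (by simp) (by simp)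
    have t012 := σ' [0, 1, 2] (by decide) (by simp) (by simp)
    have t013 := σ' [0, 1, 3] (by decide) (by simp) (by simp)
    have t023 := σ' [0, 2, 3] (by decide) (by simp) (by simp)
    have t123 := σ' [1, 2, 3] (by decide) (by simp) (by simp)
    simp only [List.map_cons, List.map_nil, List.sum_cons, List.sum_nil, add_zero] at t01 t02 t03 t12 t13 t23 t012 t013 t023 t123
    generalize w w1 - c = ω at *
    generalize w (y 0) - c = A0 at *
    generalize w (y 1) - c = A1 at *
    generalize w (y 2) - c = A2 at *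
    generalize w (y 3) - c = A3 at *
    generalize (v (y 0)).1 - a.1 = p0 at *
    generalize (v (y 1)).1 - a.1 = p1 at *
    generalize (v (y 2)).1 - a.1 = p2 at *
    generalize (v (y 3)).1 - a.1 = p3 at *
    generalize (v (y 0)).2 - a.2 = q0 at *
    generalize (v (y 1)).2 - a.2 = q1 at *
    generalize (v (y 2)).2 - a.2 = q2 at *
    generalize (v (y 3)).2 - a.2 = q3 at *
    apply ω0
    -- each triple gives L_i + L_j + L_k = 2 ω
    have r012 : (A0 + p0 * q0) + (A1 + p1 * q1) + (A2 + p2 * q2) = 2 * ω := by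
      linear_combination t01 + t02 + t12 - t012
    have r013 : (A0 + p0 * q0) + (A1 + p1 * q1) + (A3 + p3 * q3) = 2 * ω := by
      linear_combination t01 + t03 + t13 - t013
    have r023 : (A0 + p0 * q0) + (A2 + p2 * q2) + (A3 + p3 * q3) = 2 * ω := by
      linear_combination t02 + t03 + t23 - t023
    have r123 : (A1 + p1 * q1) + (A2 + p2 * q2) + (A3 + p3 * q3) = 2 * ω := by
      linear_combination t12 + t13 + t23 - t123
    linear_combination r012 + r013 + r023 + r123 + (3 * ω - ((A0 + p0 * q0) + (A1 + p1 * q1) +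
      (A2 + p2 * q2) + (A3 + p3 * q3))) * h3

/-- the class zero modulo three. -/
theorem zero_mod (v : V → F2) (w : V → ZMod 3) (k : ℕ) (hk : 2 ≤ k) (X : Finset V)
    (hX : X.card = 3 * k + 3) (hH : HH X v) :
    ∃ U ⊆ X, U.card = 3 * k ∧
      (∑ u ∈ U, w u) + (∑ u ∈ U, (v u).1) * (∑ u ∈ U, (v u).2) = 0 := by
  rcases structure_types hH (by omega) with hL | ⟨a, T, hT, h⟩
  · exact zero_mod_line v w k (by omega) X hX hL
  · exact zero_mod_const v w k hk X hX hH a T hT h

end H717.Z3
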