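import Pool.Agent.H717.Z3.Cplt2

set_option autoImplicit false
set_option linter.unusedSectionVars false
set_option linter.unusedSimpArgs false

/-! Complete graphs on at least four vertices. -/

namespace H717.Z3

open Finset Function

variable {V : Type*} [DecidableEq V]

/-- the weight (counted twice) of the complete graph on `U`. -/
def E2 (f : V → V → ZMod 3) (U : Finset V) : ZMod 3 :=
  ∑ u ∈ U, ∑ v ∈ U, if u = v then 0 else f u v

def AK (m : ℕ) : Fin m → Fin m → ZMod 3 := fun x y => if x = y then 0 else 1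

theorem T_AK (m : ℕ) (f : V → V → ZMod 3) (φ : Fin m → V) (hφ : Injective φ) :
    T (AK m) f φ = E2 f (Finset.univ.image φ) := by
  unfold T E2 AK
  rw [Finset.sum_image (fun x _ y _ h => hφ h)]
  refine Finset.sum_congr rfl fun x _ => ?_
  rw [Finset.sum_image (fun x _ y _ h => hφ h)]
  refine Finset.sum_congr rfl fun y _ => ?_
  by_cases h : x = y
  · simp [h]
  · simp [h, hφ.ne h]

theorem E2_form (f : V → V → ZMod 3) (g : V → ZMod 3) (v : V → F2) (X U : Finset V) (hU : U ⊆ X)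
    (h : ∀ u ∈ X, ∀ w ∈ X, u ≠ w → f u w = g u + g w + bil (v u) (v w)) :
    E2 f U = 2 * (((U.card : ZMod 3) - 1) * ∑ u ∈ U, g u +
      ((∑ u ∈ U, (v u).1) * (∑ u ∈ U, (v u).2) - ∑ u ∈ U, (v u).1 * (v u).2)) := by
  have key : ∀ u ∈ U, ∀ w ∈ U, (if u = w then 0 else f u w) =
      (g u + g w + ((v u).1 * (v w).2 + (v u).2 * (v w).1)) -
        (if u = w then 2 * g u + 2 * ((v u).1 * (v u).2) else 0) := by
    intro u hu w hw
    by_cases e : u = w
    · subst e; simp only [if_true]; ring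
    · rw [if_neg e, if_neg e, h u (hU hu) w (hU hw) e, bil]; ring
  unfold E2
  rw [Finset.sum_congr rfl (fun u hu => Finset.sum_congr rfl (fun w hw => key u hu w hw))]
  simp only [Finset.sum_sub_distrib, Finset.sum_add_distrib, Finset.sum_const, nsmul_eq_mul,
    Finset.sum_ite_eq]
  have e1 : ∑ x ∈ U, ∑ x_1 ∈ U, (v x).1 * (v x_1).2 = (∑ u ∈ U, (v u).1) * (∑ u ∈ U, (v u).2) := by
    rw [Finset.sum_mul_sum]
  have e2 : ∑ x ∈ U, ∑ x_1 ∈ U, (v x).2 * (v x_1).1 = (∑ u ∈ U, (v u).1) * (∑ u ∈ U, (v u).2) := by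
    rw [mul_comm, Finset.sum_mul_sum]
  have e3 : (∑ x ∈ U, if x ∈ U then 2 * g x + 2 * ((v x).1 * (v x).2) else 0) =
      2 * (∑ u ∈ U, g u) + 2 * ∑ u ∈ U, (v u).1 * (v u).2 := by
    rw [Finset.mul_sum, Finset.mul_sum, ← Finset.sum_add_distrib]
    exact Finset.sum_congr rfl fun x hx => by rw [if_pos hx]
  rw [e1, e2, e3]
  have e4 : ∑ x ∈ U, (U.card : ZMod 3) * g x = (U.card : ZMod 3) * ∑ u ∈ U, g u := by
    rw [Finset.mul_sum]
  rw [e4]
  ring

variable [Fintype V]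

theorem complete_case (m : ℕ) (hm : 4 ≤ m) (hm3 : m % 3 = 0 ∨ m % 3 = 1)
    (f : V → V → ZMod 3) (hf : ∀ u v, f u v = f v u) (hV : m + 7 ≤ Fintype.card V) :
    ∃ U : Finset V, U.card = m ∧ E2 f U = 0 := by
  classical
  by_contra hcon
  push Not at hcon
  have h3 := three_zero
  have bad : ∀ φ : Fin m → V, Injective φ → T (AK m) f φ ≠ 0 := by
    intro φ hφ
    rw [T_AK m f φ hφ]
    exact hcon _ (by rw [Finset.card_image_of_injective _ hφ]; simp)
  have hA : ∀ x y, AK m x y = AK m y x := by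
    intro x y; unfold AK; simp only [eq_comm]
  have hA0 : ∀ x, AK m x x = 0 := by intro x; simp [AK]
  have hne : ∀ i j : ℕ, ∀ (hi : i < m) (hj : j < m), i ≠ j → AK m ⟨i, hi⟩ ⟨j, hj⟩ = 1 := by
    intro i j hi hj hij; simp [AK, hij]
  have hafn : ∀ a0 c0 a1 c1 a2 c2 a3 c3 : V, [a0, c0, a1, c1, a2, c2, a3, c3].Nodup →
      D f a0 c0 a1 c1 * D f a2 c2 a3 c3 + D f a0 c0 a2 c2 * D f a1 c1 a3 c3 +
      D f a0 c0 a3 c3 * D f a1 c1 a2 c2 = 0 := by
    intro a0 c0 a1 c1 a2 c2 a3 c3 hnd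
    have := haf (AK m) f hA hA0 hf bad (by simpa using (by omega : m + 4 ≤ Fintype.card V))
      ⟨0, by omega⟩ ⟨1, by omega⟩ ⟨2, by omega⟩ ⟨3, by omega⟩ (by simp) a0 c0 a1 c1 a2 c2 a3 c3 hnd
    rw [hne, hne, hne, hne, hne, hne] at this <;> try norm_num
    linear_combination this
  have hE : ∑ x, ∑ y, AK m x y = 0 := by
    have e1 : ∀ x, ∑ y, AK m x y = (m : ZMod 3) - 1 := by
      intro x
      have : ∀ y, AK m x y = 1 - (if x = y then 1 else 0) := by
        intro y; unfold AK; split_ifs <;> ring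
      simp [this]
    simp only [e1, Finset.sum_const, Finset.card_univ, Fintype.card_fin, nsmul_eq_mul]
    rcases hm3 with h | h
    · have : ((m : ℕ) : ZMod 3) = 0 := by
        rw [ZMod.natCast_eq_zero_iff]; omega
      rw [this]; ring
    · obtain ⟨k, hk⟩ : ∃ k, m = 3 * k + 1 := ⟨m / 3, by omega⟩
      rw [hk]; push_cast; rw [h3]; ring
  by_cases hD : ∀ a c b d : V, [a, c, b, d].Nodup → D f a c b d = 0
  · obtain ⟨φ, h1, h2⟩ := pot_case (AK m) f hA hA0 hf hE Finset.univ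
      (by simpa using (by omega : m + 2 ≤ Fintype.card V))
      (fun a _ c _ b _ d _ hnd => hD a c b d hnd)
    exact bad φ h1 h2
  push Not at hD
  obtain ⟨a1, c1, a2, c2, hnd, hd⟩ := hD
  set d := D f a1 c1 a2 c2 with hdd
  have hd2 : d ^ 2 = 1 := sq_one d hd
  simp only [List.nodup_cons, List.mem_cons, List.not_mem_nil, or_false, not_or,
            List.nodup_nil, not_false_eq_true, and_true] at hnd
  obtain ⟨⟨n1, n2, n3⟩, ⟨n4, n5⟩, n6⟩ := hnd
  let p : V → ZMod 3 := fun u => f a1 u - f c1 u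
  let q : V → ZMod 3 := fun u => f a2 u - f c2 u
  let W : Finset V := ({a1, c1, a2, c2} : Finset V)ᶜ
  have hWc : m + 3 ≤ W.card := by
    rw [Finset.card_compl]
    have : ({a1, c1, a2, c2} : Finset V).card ≤ 4 := Finset.card_le_four
    omega
  have hWm : ∀ u ∈ W, u ≠ a1 ∧ u ≠ c1 ∧ u ≠ a2 ∧ u ≠ c2 := by
    intro u hu
    simpa [W] using hu
  have main : ∀ x ∈ W, ∀ y ∈ W, ∀ x' ∈ W, ∀ y' ∈ W, [x, y, x', y'].Nodup →
      D f x y x' y' = - d * ((p x - p y) * (q x' - q y') + (p x' - p y') * (q x - q y)) := by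
    intro x hx y hy x' hx' y' hy' hnd
    have hnd' := hnd
    simp only [List.nodup_cons, List.mem_cons, List.not_mem_nil, or_false, not_or,
            List.nodup_nil, not_false_eq_true, and_true] at hnd'
    obtain ⟨⟨m1, m2, m3⟩, ⟨m4, m5⟩, m6⟩ := hnd'
    have wx := hWm x hx
    have wy := hWm y hy
    have wx' := hWm x' hx'
    have wy' := hWm y' hy'
    have := hafn a1 c1 a2 c2 x y x' y' (by
      simp only [List.nodup_cons, List.mem_cons, List.not_mem_nil, or_false, not_or,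
            List.nodup_nil, not_false_eq_true, and_true]
      exact ⟨⟨n1, n2, n3, wx.1.symm, wy.1.symm, wx'.1.symm, wy'.1.symm⟩,
        ⟨n4, n5, wx.2.1.symm, wy.2.1.symm, wx'.2.1.symm, wy'.2.1.symm⟩,
        ⟨n6, wx.2.2.1.symm, wy.2.2.1.symm, wx'.2.2.1.symm, wy'.2.2.1.symm⟩,
        ⟨wx.2.2.2.symm, wy.2.2.2.symm, wx'.2.2.2.symm, wy'.2.2.2.symm⟩,
        ⟨m1, m2, m3⟩, ⟨m4, m5⟩, m6⟩)
    rw [← hdd] at this
    have e1 : ∀ s t, D f a1 c1 s t = p s - p t := by intro s t; simp only [D, p]; ring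
    have e2 : ∀ s t, D f a2 c2 s t = q s - q t := by intro s t; simp only [D, q]; ring
    rw [e1, e1, e2, e2] at this
    linear_combination d * this - (D f x y x' y') * hd2
  obtain ⟨g, hg⟩ := potential (fun u w => f u w + d * (p u * q w + p w * q u)) (by
      intro u w; rw [hf u w]; ring) W (by omega) (by
      intro x hx y hy x' hx' y' hy' hnd
      have := main x hx y hy x' hx' y' hy' hnd
      simp only [D] at this ⊢
      linear_combination this)
  obtain ⟨X, hXW, hXc⟩ := Finset.exists_subset_card_eq hWc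
  let v : V → F2 := fun u => (-d * p u, q u)
  have hform : ∀ u ∈ X, ∀ w ∈ X, u ≠ w → f u w = g u + g w + bil (v u) (v w) := by
    intro u hu w hw huw
    have := hg u (hXW hu) w (hXW hw) huw
    simp only [bil, v]
    linear_combination this
  have hDb : ∀ x ∈ X, ∀ y ∈ X, ∀ x' ∈ X, ∀ y' ∈ X, [x, y, x', y'].Nodup →
      D f x y x' y' = bil (v x - v y) (v x' - v y') := by
    intro x hx y hy x' hx' y' hy' hnd
    rw [main x (hXW hx) y (hXW hy) x' (hXW hx') y' (hXW hy') hnd]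
    simp only [bil, v, Prod.fst_sub, Prod.snd_sub]
    ring
  have hH : HH X v := by
    intro x0 hx0 y0 hy0 x1 hx1 y1 hy1 x2 hx2 y2 hy2 x3 hx3 y3 hy3 hnd
    have hh := hafn x0 y0 x1 y1 x2 y2 x3 y3 hnd
    simp only [List.nodup_cons, List.mem_cons, List.not_mem_nil, or_false, not_or,
            List.nodup_nil, not_false_eq_true, and_true] at hnd
    obtain ⟨⟨n1, n2, n3, n4, n5, n6, n7⟩, ⟨n8, n9, n10, n11, n12, n13⟩, ⟨n14, n15, n16, n17, n18⟩,
      ⟨n19, n20, n21, n22⟩, ⟨n23, n24, n25⟩, ⟨n26, n27⟩, n28⟩ := hnd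
    rw [hDb x0 hx0 y0 hy0 x1 hx1 y1 hy1 (by simp; tauto),
      hDb x2 hx2 y2 hy2 x3 hx3 y3 hy3 (by simp; tauto),
      hDb x0 hx0 y0 hy0 x2 hx2 y2 hy2 (by simp; tauto),
      hDb x1 hx1 y1 hy1 x3 hx3 y3 hy3 (by simp; tauto),
      hDb x0 hx0 y0 hy0 x3 hx3 y3 hy3 (by simp; tauto),
      hDb x1 hx1 y1 hy1 x2 hx2 y2 hy2 (by simp; tauto)] at hh
    exact hh
  rcases hm3 with h | h
  · obtain ⟨k, hk⟩ : ∃ k, m = 3 * k := ⟨m / 3, by omega⟩
    obtain ⟨U, hU, hUc, hs⟩ := zero_mod v (fun u => - g u - (v u).1 * (v u).2) k (by omega) X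
      (by omega) hH
    refine hcon U (by omega) ?_
    rw [E2_form f g v X U hU hform, hUc]
    push_cast
    rw [h3]
    simp only [Finset.sum_sub_distrib, Finset.sum_neg_distrib] at hs
    linear_combination 2 * hs
  · obtain ⟨k, hk⟩ : ∃ k, m = 3 * k + 1 := ⟨m / 3, by omega⟩
    obtain ⟨U, hU, hUc, hs⟩ := one_mod v k (by omega) X (by omega) hH
    refine hcon U (by omega) ?_
    rw [E2_form f g v X U hU hform, hUc]
    push_cast
    rw [h3]
    linear_combination 2 * hs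

end H717.Z3
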