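import Pool.Agent.H717.Z3.Cplt3

set_option autoImplicit false
set_option linter.unusedSectionVars false
set_option linter.unusedSimpArgs false

/-! The triangle: eleven vertices suffice, ten do not. -/

namespace H717.Z3

open Finset Function

section upper

variable {V : Type*} [DecidableEq V] [Fintype V]

def Nb (f : V → V → ZMod 3) (i : ZMod 3) (v : V) : Finset V :=
  Finset.univ.filter (fun u => u ≠ v ∧ f v u = i)

theorem mem_Nb {f : V → V → ZMod 3} {i : ZMod 3} {v u : V} :
    u ∈ Nb f i v ↔ u ≠ v ∧ f v u = i := by simp [Nb]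

theorem zm1 : ∀ a b c : ZMod 3, a + b + c ≠ 0 → a = b → c ≠ a := by decide
theorem zm2 : ∀ a b c : ZMod 3, a + b + c ≠ 0 → a ≠ b → c = a ∨ c = b := by decide
theorem third' : ∀ i c a b : ZMod 3, (c ≠ i ∧ a ≠ i ∧ a ≠ c ∧ b ≠ i ∧ b ≠ c) → a = b := by decide
theorem third (i c a b : ZMod 3) (h1 : c ≠ i) (h2 : a ≠ i) (h3 : a ≠ c) (h4 : b ≠ i)
    (h5 : b ≠ c) : a = b := third' i c a b ⟨h1, h2, h3, h4, h5⟩
theorem card_z3 : (Finset.univ : Finset (ZMod 3)).card = 3 := by decide

def NoTri (f : V → V → ZMod 3) : Prop :=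
  ∀ x y z : V, x ≠ y → x ≠ z → y ≠ z → f x y + f x z + f y z ≠ 0

theorem no_mono {f : V → V → ZMod 3} (h : NoTri f) {x y z : V} (hxy : x ≠ y) (hxz : x ≠ z)
    (hyz : y ≠ z) {c : ZMod 3} (h1 : f x y = c) (h2 : f x z = c) : f y z ≠ c := by
  have := zm1 _ _ _ (h x y z hxy hxz hyz) (by rw [h1, h2])
  rwa [h1] at this

theorem no_rain {f : V → V → ZMod 3} (h : NoTri f) {x y z : V} (hxy : x ≠ y) (hxz : x ≠ z)
    (hyz : y ≠ z) (h1 : f x y ≠ f x z) : f y z = f x y ∨ f y z = f x z :=
  zm2 _ _ _ (h x y z hxy hxz hyz) h1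

theorem small2 {f : V → V → ZMod 3} (h : NoTri f) (i j : ZMod 3) (hij : j ≠ i) (X : Finset V)
    (hX : ∀ x ∈ X, ∀ y ∈ X, x ≠ y → f x y ≠ i ∧ f x y ≠ j) : X.card ≤ 2 := by
  by_contra hc
  obtain ⟨x, hx, y, hy, z, hz, hxy, hxz, hyz⟩ := Finset.two_lt_card.mp (not_le.mp hc)
  have a := hX x hx y hy hxy
  have b := hX x hx z hz hxz
  have c := hX y hy z hz hyz
  have e1 := third i j _ _ hij a.1 a.2 b.1 b.2
  have e2 := third i j _ _ hij c.1 c.2 a.1 a.2
  exact no_mono h hxy hxz hyz rfl e1.symm e2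

theorem r33 {f : V → V → ZMod 3} (h : NoTri f) (i : ZMod 3) (X : Finset V)
    (hX : ∀ x ∈ X, ∀ y ∈ X, x ≠ y → f x y ≠ i) : X.card ≤ 5 := by
  classical
  by_contra hc
  have hc' : 6 ≤ X.card := by omega
  obtain ⟨x, hx⟩ : X.Nonempty := by rw [← Finset.card_pos]; omega
  have hcard : (Finset.univ.erase i : Finset (ZMod 3)).card * 2 < (X.erase x).card := by
    rw [Finset.card_erase_of_mem (Finset.mem_univ i), Finset.card_erase_of_mem hx]
    rw [card_z3]
    omega
  obtain ⟨c, hc1, hc2⟩ := Finset.exists_lt_card_fiber_of_mul_lt_card_of_maps_to (f := f x)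
    (s := X.erase x) (t := Finset.univ.erase i) (n := 2) (by
      intro y hy
      rw [Finset.mem_erase] at hy
      exact Finset.mem_erase.mpr ⟨hX x hx y hy.2 (Ne.symm hy.1), Finset.mem_univ _⟩) hcard
  have hci : c ≠ i := (Finset.mem_erase.mp hc1).1
  have := small2 h i c hci ((X.erase x).filter (fun y => f x y = c)) (by
    intro y hy z hz hyz
    simp only [Finset.mem_filter, Finset.mem_erase] at hy hz
    exact ⟨hX y hy.1.2 z hz.1.2 hyz, no_mono h (Ne.symm hy.1.1) (Ne.symm hz.1.1) hyz hy.2 hz.2⟩)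
  omega

variable {f : V → V → ZMod 3}

theorem Nb_le5 (h : NoTri f) (i : ZMod 3) (v : V) : (Nb f i v).card ≤ 5 := by
  apply r33 h i
  intro x hx y hy hxy
  rw [mem_Nb] at hx hy
  exact no_mono h (Ne.symm hx.1) (Ne.symm hy.1) hxy hx.2 hy.2

/-- the structure seen from a vertex `y` outside. -/
theorem struct (h : NoTri f) (hf : ∀ u v, f u v = f v u) (i : ZMod 3) (v y : V) (hyv : y ≠ v)
    (hy : f v y ≠ i) :
    (∀ x ∈ Nb f i v, f y x ≠ i → f y x = f v y) ∧
    (∀ x ∈ Nb f i v, ∀ x' ∈ Nb f i v, x ≠ x' → f y x ≠ i → f y x' = i → f x x' = f v y) ∧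
    ((∃ x ∈ Nb f i v, f y x ≠ i) →
      ((Nb f i v).filter (fun x => f y x ≠ i)).card ≤ 2 ∧
      ((Nb f i v).filter (fun x => ¬ (f y x ≠ i))).card ≤ 2) := by
  classical
  have inX : ∀ x ∈ Nb f i v, ∀ x' ∈ Nb f i v, x ≠ x' → f x x' ≠ i := by
    intro x hx x' hx' hne
    rw [mem_Nb] at hx hx'
    exact no_mono h (Ne.symm hx.1) (Ne.symm hx'.1) hne hx.2 hx'.2
  have hyX : ∀ x ∈ Nb f i v, x ≠ y := by
    intro x hx e
    rw [mem_Nb, e] at hx
    exact hy hx.2
  have p1 : ∀ x ∈ Nb f i v, f y x ≠ i → f y x = f v y := by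
    intro x hx hne
    have hx' := mem_Nb.mp hx
    rcases no_rain h (Ne.symm hx'.1) (Ne.symm hyv) (hyX x hx) (by rw [hx'.2]; exact Ne.symm hy) with
      e | e
    · rw [hf x y, hx'.2] at e; exact absurd e hne
    · rw [hf x y] at e; exact e
  have p2 : ∀ x ∈ Nb f i v, ∀ x' ∈ Nb f i v, x ≠ x' → f y x ≠ i → f y x' = i →
      f x x' = f v y := by
    intro x hx x' hx' hne h1 h2
    rcases no_rain h (Ne.symm (hyX x hx)) (Ne.symm (hyX x' hx')) hne (by rw [h2]; exact h1) with
      e | e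
    · rw [e]; exact p1 x hx h1
    · rw [h2] at e; exact absurd e (inX x hx x' hx' hne)
  refine ⟨p1, p2, ?_⟩
  rintro ⟨a, ha, hai⟩
  constructor
  · apply small2 h i (f v y) hy
    intro x hx x' hx' hne
    rw [Finset.mem_filter] at hx hx'
    exact ⟨inX x hx.1 x' hx'.1 hne, no_mono h (Ne.symm (hyX x hx.1)) (Ne.symm (hyX x' hx'.1)) hne
      (p1 x hx.1 hx.2) (p1 x' hx'.1 hx'.2)⟩
  · apply small2 h i (f v y) hy
    intro x hx x' hx' hne
    rw [Finset.mem_filter, not_not] at hx hx'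
    have hax : a ≠ x := fun e => hai (e ▸ hx.2)
    have hax' : a ≠ x' := fun e => hai (e ▸ hx'.2)
    exact ⟨inX x hx.1 x' hx'.1 hne, no_mono h hax hax' hne (p2 a ha x hx.1 hax hai hx.2)
      (p2 a ha x' hx'.1 hax' hai hx'.2)⟩

/-- if nobody outside deviates then there are at most `|N| + 5` vertices. -/
theorem all_i (h : NoTri f) (hf : ∀ u v, f u v = f v u) (i : ZMod 3) (v : V)
    (hne : (Nb f i v).Nonempty)
    (hall : ∀ y, y ≠ v → f v y ≠ i → ∀ x ∈ Nb f i v, f y x = i) :
    Fintype.card V ≤ (Nb f i v).card + 5 := by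
  classical
  obtain ⟨x, hx⟩ := hne
  have hsub : (Nb f i v)ᶜ ⊆ Nb f i x := by
    intro u hu
    rw [Finset.mem_compl, mem_Nb] at hu
    have hx' := mem_Nb.mp hx
    rw [mem_Nb]
    by_cases huv : u = v
    · rw [huv, hf x v]; exact ⟨Ne.symm hx'.1, hx'.2⟩
    · have h1 : f v u ≠ i := fun e => hu ⟨huv, e⟩
      refine ⟨?_, ?_⟩
      · intro e; rw [e] at h1; exact h1 hx'.2
      · rw [hf x u]; exact hall u huv h1 x hx
  have h1 := Finset.card_le_card hsub
  have h2 := Nb_le5 h i x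
  rw [Finset.card_compl] at h1
  omega

theorem Nb_le4 (h : NoTri f) (hf : ∀ u v, f u v = f v u) (hV : 11 ≤ Fintype.card V) (i : ZMod 3)
    (v : V) : (Nb f i v).card ≤ 4 := by
  classical
  by_contra hc
  have hall : ∀ y, y ≠ v → f v y ≠ i → ∀ x ∈ Nb f i v, f y x = i := by
    intro y hyv hy x hx
    by_contra hne
    obtain ⟨-, -, h3⟩ := struct h hf i v y hyv hy
    obtain ⟨c1, c2⟩ := h3 ⟨x, hx, hne⟩
    have := Finset.card_filter_add_card_filter_not (s := Nb f i v) (fun x => f y x ≠ i)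
    omega
  have h1 := all_i h hf i v (by rw [← Finset.card_pos]; omega) hall
  have h2 := Nb_le5 h i v
  omega

theorem univ3 : ∀ i j k : ZMod 3, j ≠ i → k ≠ i → k ≠ j →
    (Finset.univ : Finset (ZMod 3)) = {i, j, k} := by decide

theorem Nb_sum (f : V → V → ZMod 3) (v : V) (i j k : ZMod 3) (hji : j ≠ i) (hki : k ≠ i)
    (hkj : k ≠ j) :
    (Nb f i v).card + (Nb f j v).card + (Nb f k v).card + 1 = Fintype.card V := by
  classical
  have h1 : (Finset.univ.erase v).card =
      ∑ c ∈ (Finset.univ : Finset (ZMod 3)), ((Finset.univ.erase v).filter (fun u => f v u = c)).card :=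
    Finset.card_eq_sum_card_fiberwise (fun x _ => by simp)
  rw [Finset.card_erase_of_mem (Finset.mem_univ v), Finset.card_univ] at h1
  have h2 : ∀ c : ZMod 3, (Finset.univ.erase v).filter (fun u => f v u = c) = Nb f c v := by
    intro c; ext u; simp [Nb]
  simp only [h2] at h1
  have h3 : (∑ c ∈ (Finset.univ : Finset (ZMod 3)), (Nb f c v).card) =
      (Nb f i v).card + (Nb f j v).card + (Nb f k v).card := by
    rw [univ3 i j k hji hki hkj]
    rw [Finset.sum_insert (by simp [Ne.symm hji, Ne.symm hki]), Finset.sum_insert (by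
      simp [Ne.symm hkj]), Finset.sum_singleton]
    ring
  have h4 : 0 < Fintype.card V := Fintype.card_pos_iff.mpr ⟨v⟩
  omega

theorem exists_third : ∀ i j : ZMod 3, j ≠ i → ∃ k, k ≠ i ∧ k ≠ j := by decide

/-- eleven vertices: a zero-sum triangle. -/
theorem k3_upper (f : V → V → ZMod 3) (hf : ∀ u v, f u v = f v u) (hV : 11 ≤ Fintype.card V) :
    ¬ NoTri f := by
  classical
  intro h
  obtain ⟨v⟩ : Nonempty V := Fintype.card_pos_iff.mp (by omega)
  -- a colour with four neighbours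
  obtain ⟨i, hi⟩ : ∃ i : ZMod 3, 4 ≤ (Nb f i v).card := by
    by_contra hcon
    push Not at hcon
    have := Nb_sum f v 0 1 2 (by decide) (by decide) (by decide)
    have a := hcon 0
    have b := hcon 1
    have c := hcon 2
    omega
  have hi4 : (Nb f i v).card = 4 := le_antisymm (Nb_le4 h hf hV i v) hi
  -- somebody deviates
  have hdev : ∃ y, y ≠ v ∧ f v y ≠ i ∧ ∃ x ∈ Nb f i v, f y x ≠ i := by
    by_contra hcon
    push Not at hcon
    have := all_i h hf i v (by rw [← Finset.card_pos]; omega) hcon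
    omega
  obtain ⟨y, hyv, hy, a, ha, hai⟩ := hdev
  obtain ⟨k, hki, hkj⟩ := exists_third i (f v y) hy
  obtain ⟨p1, p2, p3⟩ := struct h hf i v y hyv hy
  obtain ⟨c1, c2⟩ := p3 ⟨a, ha, hai⟩
  have hsplit := Finset.card_filter_add_card_filter_not (s := Nb f i v) (fun x => f y x ≠ i)
  have inX : ∀ x ∈ Nb f i v, ∀ x' ∈ Nb f i v, x ≠ x' → f x x' ≠ i := by
    intro x hx x' hx' hne
    rw [mem_Nb] at hx hx'
    exact no_mono h (Ne.symm hx.1) (Ne.symm hx'.1) hne hx.2 hx'.2
  -- the `k`-neighbours of `a`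
  have hsub : Nb f k a ⊆ ((Nb f i v).filter (fun x => f y x ≠ i)).erase a := by
    intro u hu
    rw [mem_Nb] at hu
    obtain ⟨hua, hk⟩ := hu
    have hav := mem_Nb.mp ha
    rw [Finset.mem_erase, Finset.mem_filter]
    refine ⟨hua, ?_⟩
    by_cases huv : u = v
    · exfalso
      rw [huv, hf a v, hav.2] at hk
      exact hki hk.symm
    by_cases huX : f v u = i
    · have huN : u ∈ Nb f i v := mem_Nb.mpr ⟨huv, huX⟩
      refine ⟨huN, ?_⟩
      intro e
      have := p2 a ha u huN (Ne.symm hua) hai e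
      rw [hk] at this
      exact hkj this
    · exfalso
      -- `u` outside
      obtain ⟨q1, q2, q3⟩ := struct h hf i v u huv huX
      have hui : f u a ≠ i := by rw [hf u a, hk]; exact hki
      have hq := q1 a ha hui
      -- colour of `v u` is `k`
      have hvu : f v u = k := by rw [← hq, hf u a, hk]
      obtain ⟨d1, d2⟩ := q3 ⟨a, ha, hui⟩
      have hsplit2 := Finset.card_filter_add_card_filter_not (s := Nb f i v) (fun x => f u x ≠ i)
      -- two vertices joined to `a` in colour `k`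
      have hsub2 : (Nb f i v).filter (fun x => ¬ (f u x ≠ i)) ⊆
          ((Nb f i v).filter (fun x => f y x ≠ i)).erase a := by
        intro x hx
        rw [Finset.mem_filter, not_not] at hx
        have hax : a ≠ x := by
          intro e; rw [← e] at hx; exact hui hx.2
        have hc := q2 a ha x hx.1 hax hui hx.2
        rw [hvu] at hc
        rw [Finset.mem_erase, Finset.mem_filter]
        refine ⟨Ne.symm hax, hx.1, ?_⟩
        intro e
        have := p2 a ha x hx.1 hax hai e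
        rw [hc] at this
        exact hkj this
      have h5 := Finset.card_le_card hsub2
      rw [Finset.card_erase_of_mem (Finset.mem_filter.mpr ⟨ha, hai⟩)] at h5
      omega
  have h6 := Finset.card_le_card hsub
  rw [Finset.card_erase_of_mem (Finset.mem_filter.mpr ⟨ha, hai⟩)] at h6
  have h7 := Nb_sum f a i (f v y) k hy hki hkj
  have h8 := Nb_le4 h hf hV i a
  have h9 := Nb_le4 h hf hV (f v y) a
  omega

end upper

/-- the colouring of the pairs of ten points: two pentagons. -/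
def col10 (u v : Fin 10) : ZMod 3 :=
  if u.val / 5 ≠ v.val / 5 then 0
  else if (u.val % 5 + 1) % 5 = v.val % 5 ∨ (v.val % 5 + 1) % 5 = u.val % 5 then 1 else 2

theorem col10_symm : ∀ u v, col10 u v = col10 v u := by decide

theorem col10_tri : NoTri col10 := by
  unfold NoTri
  decide

end H717.Z3
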