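import Pool.Agent.H717.Z3.K3

set_option autoImplicit false
set_option linter.unusedSectionVars false
set_option linter.unusedSimpArgs false

/-! All graphs: a zero-sum map on `n + 7` vertices unless the graph is a triangle. -/

namespace H717.Z3

open Finset Function

variable {α V : Type*} [Fintype α] [DecidableEq α] [DecidableEq V] [Fintype V]

/-- adjacency weights. -/
def AG (G : SimpleGraph α) [DecidableRel G.Adj] : α → α → ZMod 3 :=
  fun x y => if G.Adj x y then 1 else 0

variable (G : SimpleGraph α) [DecidableRel G.Adj]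

theorem AG_symm (x y : α) : AG G x y = AG G y x := by
  unfold AG; simp only [G.adj_comm]

theorem AG_diag (x : α) : AG G x x = 0 := by simp [AG]

theorem AG_one {x y : α} (h : G.Adj x y) : AG G x y = 1 := by simp [AG, h]

theorem AG_cases (x y : α) : AG G x y = 0 ∨ (AG G x y = 1 ∧ G.Adj x y) := by
  unfold AG; by_cases h : G.Adj x y <;> simp [h]

/-- all products of differences over disjoint quadruples vanish. -/
theorem prod_zero_case (f : V → V → ZMod 3) (hf : ∀ u v, f u v = f v u)
    (hE : ∑ x, ∑ y, AG G x y = 0) (hV : Fintype.card α + 6 ≤ Fintype.card V)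
    (hD : ∀ a0 c0 a1 c1 a2 c2 a3 c3 : V, [a0, c0, a1, c1, a2, c2, a3, c3].Nodup →
      D f a0 c0 a1 c1 * D f a2 c2 a3 c3 = 0) :
    ∃ φ : α → V, Injective φ ∧ T (AG G) f φ = 0 := by
  classical
  by_cases h0 : ∀ a c b d : V, [a, c, b, d].Nodup → D f a c b d = 0
  · exact pot_case (AG G) f (AG_symm G) (AG_diag G) hf hE Finset.univ
      (by rw [Finset.card_univ]; omega) (fun a _ c _ b _ d _ hnd => h0 a c b d hnd)
  · push Not at h0
    obtain ⟨a, c, b, d, hnd, hd⟩ := h0
    simp only [List.nodup_cons, List.mem_cons, List.not_mem_nil, or_false, not_or,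
            List.nodup_nil, not_false_eq_true, and_true] at hnd
    obtain ⟨⟨n1, n2, n3⟩, ⟨n4, n5⟩, n6⟩ := hnd
    refine pot_case (AG G) f (AG_symm G) (AG_diag G) hf hE ({a, c, b, d} : Finset V)ᶜ ?_ ?_
    · rw [Finset.card_compl]
      have : ({a, c, b, d} : Finset V).card ≤ 4 := Finset.card_le_four
      omega
    · intro x hx y hy x' hx' y' hy' hnd
      simp only [Finset.mem_compl, Finset.mem_insert, Finset.mem_singleton, not_or] at hx hy hx' hy'
      simp only [List.nodup_cons, List.mem_cons, List.not_mem_nil, or_false, not_or,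
            List.nodup_nil, not_false_eq_true, and_true] at hnd
      obtain ⟨⟨m1, m2, m3⟩, ⟨m4, m5⟩, m6⟩ := hnd
      have := hD a c b d x y x' y' (by
        simp only [List.nodup_cons, List.mem_cons, List.not_mem_nil, or_false, not_or,
              List.nodup_nil, not_false_eq_true, and_true]
        exact ⟨⟨n1, n2, n3, Ne.symm hx.1, Ne.symm hy.1, Ne.symm hx'.1, Ne.symm hy'.1⟩,
          ⟨n4, n5, Ne.symm hx.2.1, Ne.symm hy.2.1, Ne.symm hx'.2.1, Ne.symm hy'.2.1⟩,
          ⟨n6, Ne.symm hx.2.2.1, Ne.symm hy.2.2.1, Ne.symm hx'.2.2.1, Ne.symm hy'.2.2.1⟩,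
          ⟨Ne.symm hx.2.2.2, Ne.symm hy.2.2.2, Ne.symm hx'.2.2.2, Ne.symm hy'.2.2.2⟩,
          ⟨m1, m2, m3⟩, ⟨m4, m5⟩, m6⟩)
      rcases mul_eq_zero.mp this with h | h
      · exact absurd h hd
      · exact h

/-- two disjoint edges that do not span a `K_4`. -/
theorem caseA (f : V → V → ZMod 3) (hf : ∀ u v, f u v = f v u)
    (hE : ∑ x, ∑ y, AG G x y = 0) (hV : Fintype.card α + 6 ≤ Fintype.card V)
    (x0 x1 x2 x3 : α) (hx : [x0, x1, x2, x3].Nodup) (h01 : G.Adj x0 x1) (h23 : G.Adj x2 x3)
    (hn : ¬ (G.Adj x0 x2 ∧ G.Adj x0 x3 ∧ G.Adj x1 x2 ∧ G.Adj x1 x3)) :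
    ∃ φ : α → V, Injective φ ∧ T (AG G) f φ = 0 := by
  classical
  by_contra hcon
  push Not at hcon
  have Dsym : ∀ a c b d, D f b d a c = D f a c b d := by
    intro a c b d; unfold D
    rw [hf b a, hf b c, hf d a, hf d c]; ring
  have h3 := three_zero
  have rel : ∀ a0 c0 a1 c1 a2 c2 a3 c3 : V, [a0, c0, a1, c1, a2, c2, a3, c3].Nodup →
      (D f a0 c0 a1 c1 * D f a2 c2 a3 c3) +
      AG G x0 x2 * AG G x1 x3 * (D f a0 c0 a2 c2 * D f a1 c1 a3 c3) +
      AG G x0 x3 * AG G x1 x2 * (D f a0 c0 a3 c3 * D f a1 c1 a2 c2) = 0 := by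
    intro a0 c0 a1 c1 a2 c2 a3 c3 hnd
    have := haf (AG G) f (AG_symm G) (AG_diag G) hf hcon (by omega) x0 x1 x2 x3 hx
      a0 c0 a1 c1 a2 c2 a3 c3 hnd
    rw [AG_one G h01, AG_one G h23] at this
    linear_combination this
  have perm : ∀ a0 c0 a1 c1 a2 c2 a3 c3 : V, [a0, c0, a1, c1, a2, c2, a3, c3].Nodup →
      [a0, c0, a1, c1, a3, c3, a2, c2].Nodup ∧ [a0, c0, a2, c2, a1, c1, a3, c3].Nodup ∧
      [a0, c0, a2, c2, a3, c3, a1, c1].Nodup := by
    intro a0 c0 a1 c1 a2 c2 a3 c3 hnd
    refine ⟨?_, ?_, ?_⟩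
    · refine (List.Perm.nodup_iff ?_).mp hnd
      have : [a2, c2, a3, c3].Perm [a3, c3, a2, c2] := List.perm_append_comm (l₁ := [a2, c2])
      exact (((this.cons c1).cons a1).cons c0).cons a0
    · refine (List.Perm.nodup_iff ?_).mp hnd
      have : ([a1, c1, a2, c2] ++ [a3, c3]).Perm ([a2, c2, a1, c1] ++ [a3, c3]) :=
        (List.perm_append_comm (l₁ := [a1, c1]) (l₂ := [a2, c2])).append_right _
      exact (this.cons c0).cons a0
    · refine (List.Perm.nodup_iff ?_).mp hnd
      have : ([a1, c1] ++ [a2, c2, a3, c3]).Perm ([a2, c2, a3, c3] ++ [a1, c1]) :=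
        List.perm_append_comm
      exact (this.cons c0).cons a0
  obtain ⟨φ, h1, h2⟩ := prod_zero_case G f hf hE hV (by
    intro a0 c0 a1 c1 a2 c2 a3 c3 hnd
    obtain ⟨p1, p2, p3⟩ := perm a0 c0 a1 c1 a2 c2 a3 c3 hnd
    have r0 := rel _ _ _ _ _ _ _ _ hnd
    have r1 := rel _ _ _ _ _ _ _ _ p1
    have r2 := rel _ _ _ _ _ _ _ _ p2
    have r3 := rel _ _ _ _ _ _ _ _ p3
    rw [Dsym a2 c2 a3 c3] at r1
    rw [Dsym a1 c1 a2 c2] at r2
    rw [Dsym a1 c1 a3 c3, Dsym a1 c1 a2 c2] at r3
    set X := D f a0 c0 a1 c1 * D f a2 c2 a3 c3 with hX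
    set Y := D f a0 c0 a2 c2 * D f a1 c1 a3 c3 with hY
    set Z := D f a0 c0 a3 c3 * D f a1 c1 a2 c2 with hZ
    have e1 : D f a0 c0 a3 c3 * D f a1 c1 a2 c2 = Z := rfl
    rcases AG_cases G x0 x2 with s1 | ⟨s1, b1⟩
    · rcases AG_cases G x0 x3 with t1 | ⟨t1, b2⟩
      · rw [s1, t1] at r0; linear_combination r0
      · rcases AG_cases G x1 x2 with t2 | ⟨t2, b3⟩
        · rw [s1, t2] at r0; linear_combination r0
        · rw [s1, t1, t2] at r0 r1 r2 r3
          linear_combination 2 * r0 + 2 * r1 - 2 * r2 - X * h3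
    · rcases AG_cases G x1 x3 with s2 | ⟨s2, b2⟩
      · rcases AG_cases G x0 x3 with t1 | ⟨t1, b3⟩
        · rw [s2, t1] at r0; linear_combination r0
        · rcases AG_cases G x1 x2 with t2 | ⟨t2, b4⟩
          · rw [s2, t2] at r0; linear_combination r0
          · rw [s2, t1, t2] at r0 r1 r2 r3
            linear_combination 2 * r0 + 2 * r1 - 2 * r2 - X * h3
      · rcases AG_cases G x0 x3 with t1 | ⟨t1, b3⟩
        · rw [s1, s2, t1] at r0 r1 r2 r3
          linear_combination 2 * r0 + 2 * r1 - 2 * r3 - X * h3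
        · rcases AG_cases G x1 x2 with t2 | ⟨t2, b4⟩
          · rw [s1, s2, t2] at r0 r1 r2 r3
            linear_combination 2 * r0 + 2 * r1 - 2 * r3 - X * h3
          · exact absurd ⟨b1, b3, b4, b2⟩ hn)
  exact hcon φ h1 h2

/-- cliques: extend a zero-sum complete graph. -/
theorem clique_case (f : V → V → ZMod 3) (K : Finset α)
    (hK : ∀ x y, G.Adj x y ↔ x ∈ K ∧ y ∈ K ∧ x ≠ y) (hV : Fintype.card α ≤ Fintype.card V)
    (U : Finset V) (hU : U.card = K.card) (h0 : E2 f U = 0) :
    ∃ φ : α → V, Injective φ ∧ T (AG G) f φ = 0 := by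
  classical
  obtain ⟨t, ht1, -, ht3⟩ := Finset.exists_subsuperset_card_eq (s := U) (t := Finset.univ)
    (n := Fintype.card α) (Finset.subset_univ _) (by rw [hU]; exact Finset.card_le_univ _)
    (by rw [Finset.card_univ]; exact hV)
  let e0 : K ≃ U := Finset.equivOfCardEq hU.symm
  by_cases hne : Nonempty V
  · obtain ⟨v0⟩ := hne
    let g : α → V := fun x => if hx : x ∈ K then (e0 ⟨x, hx⟩ : V) else v0
    have hg : ∀ x (hx : x ∈ K), g x = (e0 ⟨x, hx⟩ : V) := by
      intro x hx; simp [g, hx]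
    have ginj : Set.InjOn g K := by
      intro x hx y hy hxy
      rw [hg x hx, hg y hy] at hxy
      have := e0.injective (Subtype.val_injective hxy)
      simpa using this
    have gim : K.image g = U := by
      apply Finset.eq_of_subset_of_card_le
      · intro v hv
        obtain ⟨x, hx, rfl⟩ := Finset.mem_image.mp hv
        rw [hg x hx]; exact (e0 ⟨x, hx⟩).2
      · rw [Finset.card_image_of_injOn ginj, hU]
    obtain ⟨e, he⟩ := Finset.exists_equiv_extend_of_card_eq (s := K) (f := g) ht3.symm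
      (by rw [gim]; exact ht1) ginj
    have hφ : Injective (fun x => (e x : V)) := Subtype.val_injective.comp e.injective
    refine ⟨fun x => (e x : V), hφ, ?_⟩
    have key : ∀ x y, AG G x y * f (e x) (e y) =
        if x ∈ K then (if y ∈ K then (if x = y then 0 else f (g x) (g y)) else 0) else 0 := by
      intro x y
      unfold AG
      by_cases hx : x ∈ K
      · by_cases hy : y ∈ K
        · by_cases hxy : x = y
          · subst hxy; simp
          · rw [if_pos ((hK x y).mpr ⟨hx, hy, hxy⟩), if_pos hx, if_pos hy, if_neg hxy, he x hx,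
              he y hy, one_mul]
        · rw [if_neg (fun h => hy ((hK x y).mp h).2.1), if_pos hx, if_neg hy, zero_mul]
      · rw [if_neg (fun h => hx ((hK x y).mp h).1), if_neg hx, zero_mul]
    unfold T
    simp only [key]
    have e1 : (∑ x, ∑ y, if x ∈ K then (if y ∈ K then (if x = y then 0 else f (g x) (g y)) else 0)
        else 0) = ∑ x ∈ K, ∑ y ∈ K, (if x = y then 0 else f (g x) (g y)) := by
      rw [← Finset.sum_filter_add_sum_filter_not Finset.univ (fun x => x ∈ K)]
      rw [Finset.sum_eq_zero (s := Finset.univ.filter (fun x => ¬ x ∈ K)) (by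
        intro x hx
        rw [Finset.mem_filter] at hx
        simp [hx.2]), add_zero]
      rw [show Finset.univ.filter (fun x => x ∈ K) = K from by ext x; simp]
      refine Finset.sum_congr rfl fun x hx => ?_
      simp only [hx, if_true]
      rw [← Finset.sum_filter]
      rw [show Finset.univ.filter (fun x => x ∈ K) = K from by ext x; simp]
    rw [e1]
    refine Eq.trans ?_ h0
    rw [← gim]
    unfold E2
    rw [Finset.sum_image ginj]
    refine Finset.sum_congr rfl fun x hx => ?_
    rw [Finset.sum_image ginj]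
    refine Finset.sum_congr rfl fun y hy => ?_
    by_cases hxy : x = y
    · simp [hxy]
    · rw [if_neg hxy, if_neg (fun h => hxy (ginj hx hy h))]
  · have hV0 : Fintype.card V = 0 := by
      rw [Fintype.card_eq_zero_iff]; exact not_nonempty_iff.mp hne
    have : IsEmpty α := by
      rw [← Fintype.card_eq_zero_iff]; omega
    exact ⟨fun x => (this.false x).elim, fun x => (this.false x).elim, by simp [T]⟩

/-- stars. -/
theorem star_case (f : V → V → ZMod 3) (hf : ∀ u v, f u v = f v u)
    (hE : ∑ x, ∑ y, AG G x y = 0) (hV : Fintype.card α + 3 ≤ Fintype.card V) (c : α)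
    (hc : ∀ x y, G.Adj x y → x = c ∨ y = c) :
    ∃ φ : α → V, Injective φ ∧ T (AG G) f φ = 0 := by
  classical
  have form : ∀ φ : α → V, T (AG G) f φ = 2 * ∑ y, AG G c y * f (φ c) (φ y) := by
    intro φ
    have key : ∀ x y, AG G x y * f (φ x) (φ y) =
        (if x = c then AG G c y * f (φ c) (φ y) else 0) +
        (if y = c then AG G c x * f (φ c) (φ x) else 0) := by
      intro x y
      by_cases hx : x = c
      · by_cases hy : y = c
        · subst hx; subst hy; simp [AG_diag]
        · subst hx; simp [hy]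
      · by_cases hy : y = c
        · subst hy; simp only [if_neg hx, if_true, zero_add]
          rw [AG_symm G x y, hf (φ x) (φ y)]
        · have : ¬ G.Adj x y := fun h => by
            rcases hc x y h with h | h
            · exact hx h
            · exact hy h
          simp [AG, this, hx, hy]
    unfold T
    rw [Finset.sum_congr rfl (fun x _ => Finset.sum_congr rfl (fun y _ => key x y))]
    simp only [Finset.sum_add_distrib]
    have h1 : (∑ x, ∑ y, (if x = c then AG G c y * f (φ c) (φ y) else 0)) =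
        ∑ y, AG G c y * f (φ c) (φ y) := by
      rw [Finset.sum_comm]; simp
    have h2 : (∑ x, ∑ y, (if y = c then AG G c x * f (φ c) (φ x) else 0)) =
        ∑ y, AG G c y * f (φ c) (φ y) := by simp
    rw [h1, h2]; ring
  have hd : ∑ y, AG G c y = 0 := by
    have h1 : ∑ x, ∑ y, AG G x y = 2 * ∑ y, AG G c y := by
      have key : ∀ x y, AG G x y = (if x = c then AG G c y else 0) +
          (if y = c then AG G c x else 0) := by
        intro x y
        by_cases hx : x = c
        · by_cases hy : y = c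
          · subst hx; subst hy; simp [AG_diag]
          · subst hx; simp [hy]
        · by_cases hy : y = c
          · subst hy; simp only [if_neg hx, if_true, zero_add]
            rw [AG_symm G x y]
          · have : ¬ G.Adj x y := fun h => by
              rcases hc x y h with h | h
              · exact hx h
              · exact hy h
            simp [AG, this, hx, hy]
      rw [Finset.sum_congr rfl (fun x _ => Finset.sum_congr rfl (fun y _ => key x y))]
      simp only [Finset.sum_add_distrib]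
      have h1 : (∑ x, ∑ y, (if x = c then AG G c y else 0)) = ∑ y, AG G c y := by
        rw [Finset.sum_comm]; simp
      have h2 : (∑ x, ∑ y, (if y = c then AG G c x else 0)) = ∑ y, AG G c y := by simp
      rw [h1, h2]; ring
    rw [hE] at h1
    have h3 := three_zero
    linear_combination -2 * h1 + (∑ y, AG G c y) * h3 - 2 * (∑ y, AG G c y) * h3
  obtain ⟨h⟩ : Nonempty V := Fintype.card_pos_iff.mp (by omega)
  obtain ⟨φ, h1, h2, h3⟩ := lemP (fun y => AG G c y) hd (Finset.univ.erase h)
    (by rw [Finset.card_erase_of_mem (Finset.mem_univ h), Finset.card_univ]; omega) (fun u => f h u)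
  have hav : ∀ y, φ y ≠ h := fun y => Finset.ne_of_mem_erase (h2 y)
  refine ⟨update φ c h, update_inj h1 c h hav, ?_⟩
  rw [form, update_self]
  have : ∀ y, AG G c y * f h (update φ c h y) = AG G c y * f h (φ y) := by
    intro y
    by_cases hy : y = c
    · subst hy; simp [AG_diag]
    · rw [update_of_ne hy]
  simp only [this]
  rw [h3]; ring

/-- the order of the clique is zero or one modulo three. -/
theorem clique_mod (K : Finset α) (hK : ∀ x y, G.Adj x y ↔ x ∈ K ∧ y ∈ K ∧ x ≠ y)
    (hE : ∑ x, ∑ y, AG G x y = 0) : K.card % 3 = 0 ∨ K.card % 3 = 1 := by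
  classical
  have h3 := three_zero
  have key : ∀ x y, AG G x y =
      if x ∈ K then (if y ∈ K then (1 - (if x = y then 1 else 0)) else 0) else 0 := by
    intro x y
    unfold AG
    by_cases hx : x ∈ K
    · by_cases hy : y ∈ K
      · by_cases hxy : x = y
        · subst hxy; simp [hx]
        · rw [if_pos ((hK x y).mpr ⟨hx, hy, hxy⟩), if_pos hx, if_pos hy, if_neg hxy, sub_zero]
      · rw [if_neg (fun h => hy ((hK x y).mp h).2.1), if_pos hx, if_neg hy]
    · rw [if_neg (fun h => hx ((hK x y).mp h).1), if_neg hx]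
  have e1 : ∑ x, ∑ y, AG G x y = (K.card : ZMod 3) * (K.card : ZMod 3) - K.card := by
    rw [Finset.sum_congr rfl (fun x _ => Finset.sum_congr rfl (fun y _ => key x y))]
    have e2 : ∀ x, (∑ y, if x ∈ K then (if y ∈ K then (1 - (if x = y then 1 else 0)) else 0) else 0) =
        if x ∈ K then ((K.card : ZMod 3) - 1) else 0 := by
      intro x
      by_cases hx : x ∈ K
      · simp only [hx, if_true]
        rw [← Finset.sum_filter]
        rw [show Finset.univ.filter (fun x => x ∈ K) = K from by ext x; simp]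
        rw [Finset.sum_sub_distrib]
        simp [hx]
      · simp [hx]
    simp only [e2]
    rw [← Finset.sum_filter]
    rw [show Finset.univ.filter (fun x => x ∈ K) = K from by ext x; simp]
    rw [Finset.sum_const, nsmul_eq_mul]; ring
  rw [hE] at e1
  have hm : K.card % 3 = 0 ∨ K.card % 3 = 1 ∨ K.card % 3 = 2 := by omega
  rcases hm with h | h | h
  · exact Or.inl h
  · exact Or.inr h
  · exfalso
    obtain ⟨k, hk⟩ : ∃ k, K.card = 3 * k + 2 := ⟨K.card / 3, by omega⟩
    rw [hk] at e1
    push_cast at e1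
    rw [h3] at e1
    have : (0 : ZMod 3) = 2 := by linear_combination e1
    exact absurd this (by decide)

theorem E2_triangle (f : V → V → ZMod 3) (hf : ∀ u v, f u v = f v u) (hV : 11 ≤ Fintype.card V) :
    ∃ U : Finset V, U.card = 3 ∧ E2 f U = 0 := by
  classical
  have h := k3_upper f hf hV
  unfold NoTri at h
  push Not at h
  obtain ⟨x, y, z, hxy, hxz, hyz, h0⟩ := h
  refine ⟨{x, y, z}, Finset.card_eq_three.mpr ⟨x, y, z, hxy, hxz, hyz, rfl⟩, ?_⟩
  unfold E2
  have s3 : ∀ g : V → ZMod 3, ∑ u ∈ ({x, y, z} : Finset V), g u = g x + g y + g z := by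
    intro g
    rw [Finset.sum_insert (by simp [hxy, hxz]), Finset.sum_insert (by simp [hyz]),
      Finset.sum_singleton]; ring
  rw [s3, s3, s3, s3]
  simp only [if_true, if_neg hxy, if_neg hxz, if_neg hyz, if_neg (Ne.symm hxy),
    if_neg (Ne.symm hxz), if_neg (Ne.symm hyz)]
  rw [hf y x, hf z x, hf z y]
  linear_combination 2 * h0

/-- the upper bound for all graphs. -/
theorem main_upper (f : V → V → ZMod 3) (hf : ∀ u v, f u v = f v u)
    (hE : ∑ x, ∑ y, AG G x y = 0) (hV : Fintype.card α + 7 ≤ Fintype.card V)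
    (hT : Fintype.card α = 3 → (∀ x y, x ≠ y → G.Adj x y) → 11 ≤ Fintype.card V) :
    ∃ φ : α → V, Injective φ ∧ T (AG G) f φ = 0 := by
  classical
  have nd4 : ∀ {a b c d : α}, a ≠ b → a ≠ c → a ≠ d → b ≠ c → b ≠ d → c ≠ d →
      [a, b, c, d].Nodup := by
    intro a b c d h1 h2 h3 h4 h5 h6
    simp only [List.nodup_cons, List.mem_cons, List.not_mem_nil, or_false, not_or,
            List.nodup_nil, not_false_eq_true, and_true]
    exact ⟨⟨h1, h2, h3⟩, ⟨h4, h5⟩, h6⟩
  by_cases hA : ∃ x0 x1 x2 x3 : α, [x0, x1, x2, x3].Nodup ∧ G.Adj x0 x1 ∧ G.Adj x2 x3 ∧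
      ¬ (G.Adj x0 x2 ∧ G.Adj x0 x3 ∧ G.Adj x1 x2 ∧ G.Adj x1 x3)
  · obtain ⟨x0, x1, x2, x3, hx, h01, h23, hn⟩ := hA
    exact caseA G f hf hE (by omega) x0 x1 x2 x3 hx h01 h23 hn
  have hB : ∀ {x0 x1 x2 x3 : α}, [x0, x1, x2, x3].Nodup → G.Adj x0 x1 → G.Adj x2 x3 →
      G.Adj x0 x2 ∧ G.Adj x0 x3 ∧ G.Adj x1 x2 ∧ G.Adj x1 x3 := by
    intro x0 x1 x2 x3 h1 h2 h3
    by_contra hcon
    exact hA ⟨x0, x1, x2, x3, h1, h2, h3, hcon⟩
  by_cases hdis : ∃ x0 x1 x2 x3 : α, [x0, x1, x2, x3].Nodup ∧ G.Adj x0 x1 ∧ G.Adj x2 x3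
  · -- the support is a clique
    obtain ⟨x0, x1, x2, x3, hx, h01, h23⟩ := hdis
    have hx' := hx
    simp only [List.nodup_cons, List.mem_cons, List.not_mem_nil, or_false, not_or,
            List.nodup_nil, not_false_eq_true, and_true] at hx'
    obtain ⟨⟨x01, x02, x03⟩, ⟨x12, x13⟩, x23⟩ := hx'
    let K : Finset α := Finset.univ.filter (fun x => ∃ y, G.Adj x y)
    have memK : ∀ x, x ∈ K ↔ ∃ y, G.Adj x y := by intro x; simp [K]
    have avoid : ∀ w : α, ∃ y z, G.Adj y z ∧ w ≠ y ∧ w ≠ z := by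
      intro w
      by_cases h : w = x0 ∨ w = x1
      · refine ⟨x2, x3, h23, ?_, ?_⟩
        · rcases h with rfl | rfl <;> assumption
        · rcases h with rfl | rfl <;> assumption
      · push Not at h
        exact ⟨x0, x1, h01, h.1, h.2⟩
    have hK : ∀ x y, G.Adj x y ↔ x ∈ K ∧ y ∈ K ∧ x ≠ y := by
      intro u v
      constructor
      · intro h
        exact ⟨(memK u).mpr ⟨v, h⟩, (memK v).mpr ⟨u, h.symm⟩, h.ne⟩
      · rintro ⟨hu, hv, huv⟩
        obtain ⟨u', hu'⟩ := (memK u).mp hu
        obtain ⟨v', hv'⟩ := (memK v).mp hv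
        by_cases e1 : u' = v
        · rw [← e1]; exact hu'
        by_cases e2 : v' = u
        · rw [← e2]; exact hv'.symm
        by_cases e3 : u' = v'
        · -- common neighbour
          subst e3
          obtain ⟨y, z, hyz, hy, hz⟩ := avoid u'
          by_cases yu : y = u
          · subst yu
            by_cases zv : z = v
            · rw [← zv]; exact hyz
            · exact (hB (nd4 hyz.ne huv (Ne.symm e2) zv (Ne.symm hz) hv'.ne)
                hyz hv').1
          by_cases yv : y = v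
          · subst yv
            by_cases zu : z = u
            · rw [← zu]; exact hyz.symm
            · exact (hB (nd4 hyz.ne (Ne.symm huv) (Ne.symm e1) zu (Ne.symm hz) hu'.ne)
                hyz hu').1.symm
          by_cases zu : z = u
          · subst zu
            exact (hB (nd4 hyz.symm.ne huv (Ne.symm e2) yv (Ne.symm hy) hv'.ne)
                hyz.symm hv').1
          by_cases zv : z = v
          · subst zv
            exact (hB (nd4 hyz.symm.ne (Ne.symm huv) (Ne.symm e1) yu (Ne.symm hy) hu'.ne)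
                hyz.symm hu').1.symm
          have a1 := (hB (nd4 hu'.ne (Ne.symm yu) (Ne.symm zu) hy hz hyz.ne) hu' hyz).1
          have a2 := (hB (nd4 hv'.ne (Ne.symm yv) (Ne.symm zv) hy hz hyz.ne) hv' hyz).2.1
          exact (hB (nd4 a1.ne huv (Ne.symm zu) yv hyz.ne a2.ne) a1 a2).1
        · exact (hB (nd4 hu'.ne huv (Ne.symm e2) e1 e3 hv'.ne) hu' hv').1
    have hK4 : 4 ≤ K.card := by
      have hsub : ({x0, x1, x2, x3} : Finset α) ⊆ K := by
        intro x hx
        simp only [Finset.mem_insert, Finset.mem_singleton] at hx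
        rw [memK]
        rcases hx with rfl | rfl | rfl | rfl
        · exact ⟨_, h01⟩
        · exact ⟨_, h01.symm⟩
        · exact ⟨_, h23⟩
        · exact ⟨_, h23.symm⟩
      have h4 : ({x0, x1, x2, x3} : Finset α).card = 4 := by
        rw [Finset.card_insert_of_notMem (by simp [*]), Finset.card_insert_of_notMem (by simp [*]),
          Finset.card_insert_of_notMem (by simp [*]), Finset.card_singleton]
      rw [← h4]; exact Finset.card_le_card hsub
    have hKn : K.card ≤ Fintype.card α := Finset.card_le_univ _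
    obtain ⟨U, hU, h0⟩ := complete_case (V := V) K.card hK4 (clique_mod G K hK hE) f hf (by omega)
    exact clique_case G f K hK (by omega) U hU h0
  -- no two disjoint edges
  have hN : ∀ {a b c d : α}, a ≠ b → a ≠ c → a ≠ d → b ≠ c → b ≠ d → c ≠ d → G.Adj a b →
      ¬ G.Adj c d := by
    intro a b c d h1 h2 h3 h4 h5 h6 hab hcd
    exact hdis ⟨a, b, c, d, nd4 h1 h2 h3 h4 h5 h6, hab, hcd⟩
  by_cases hno : ∀ x y, ¬ G.Adj x y
  · obtain ⟨e⟩ : Nonempty (α ↪ V) := Function.Embedding.nonempty_of_card_le (by omega)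
    exact ⟨e, e.injective, by simp [T, AG, hno]⟩
  push Not at hno
  obtain ⟨x0, x1, h01⟩ := hno
  by_cases hs0 : ∀ x y, G.Adj x y → x = x0 ∨ y = x0
  · exact star_case G f hf hE (by omega) x0 hs0
  by_cases hs1 : ∀ x y, G.Adj x y → x = x1 ∨ y = x1
  · exact star_case G f hf hE (by omega) x1 hs1
  push Not at hs0 hs1
  obtain ⟨p, q, hpq, hp0, hq0⟩ := hs0
  obtain ⟨r, s, hrs, hr1, hs1⟩ := hs1
  -- the edge avoiding `x0` is `x1 y`
  obtain ⟨y, hy, hy0⟩ : ∃ y, G.Adj x1 y ∧ y ≠ x0 := by
    by_cases e1 : p = x1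
    · subst e1; exact ⟨q, hpq, hq0⟩
    by_cases e2 : q = x1
    · subst e2; exact ⟨p, hpq.symm, hp0⟩
    · exact absurd hpq (hN h01.ne (Ne.symm hp0) (Ne.symm hq0) (Ne.symm e1) (Ne.symm e2) hpq.ne h01)
  obtain ⟨z, hz, hz1⟩ : ∃ z, G.Adj x0 z ∧ z ≠ x1 := by
    by_cases e1 : r = x0
    · subst e1; exact ⟨s, hrs, hs1⟩
    by_cases e2 : s = x0
    · subst e2; exact ⟨r, hrs.symm, hr1⟩
    · exact absurd hrs (hN h01.ne (Ne.symm e1) (Ne.symm e2) (Ne.symm hr1) (Ne.symm hs1) hrs.ne h01)
  have hyz : y = z := by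
    by_contra hne
    exact hN hy.ne (Ne.symm h01.ne) (Ne.symm hz1) hy0 hne hz.ne hy hz
  subst hyz
  let K : Finset α := {x0, x1, y}
  have hKc : K.card = 3 := Finset.card_eq_three.mpr ⟨x0, x1, y, h01.ne, hz.ne, hy.ne, rfl⟩
  have memK : ∀ x, x ∈ K ↔ x = x0 ∨ x = x1 ∨ x = y := by intro x; simp [K]
  have inK : ∀ a b, G.Adj a b → a ∈ K := by
    intro a b hab
    by_contra ha
    rw [memK] at ha
    push Not at ha
    obtain ⟨a0, a1, ay⟩ := ha
    by_cases b0 : b = x0
    · subst b0
      exact hN a0 a1 ay h01.ne hz.ne hy.ne hab hy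
    by_cases b1 : b = x1
    · subst b1
      exact hN a1 a0 ay (Ne.symm h01.ne) hy.ne hz.ne hab hz
    · exact hN hab.ne a0 a1 b0 b1 h01.ne hab h01
  have hK : ∀ a b, G.Adj a b ↔ a ∈ K ∧ b ∈ K ∧ a ≠ b := by
    intro a b
    constructor
    · intro h; exact ⟨inK a b h, inK b a h.symm, h.ne⟩
    · rintro ⟨ha, hb, hab⟩
      rw [memK] at ha hb
      rcases ha with rfl | rfl | rfl <;> rcases hb with rfl | rfl | rfl <;>
        first | exact absurd rfl hab | assumption | (apply SimpleGraph.Adj.symm; assumption)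
  have h11 : 11 ≤ Fintype.card V := by
    have hKn : K.card ≤ Fintype.card α := Finset.card_le_univ _
    rcases Nat.lt_or_ge 3 (Fintype.card α) with h | h
    · omega
    · have h3 : Fintype.card α = 3 := by omega
      refine hT h3 ?_
      have hKu : K = Finset.univ := Finset.eq_univ_of_card K (by rw [hKc, h3])
      intro a b hab
      rw [hK, hKu]; exact ⟨Finset.mem_univ _, Finset.mem_univ _, hab⟩
  obtain ⟨U, hU, h0⟩ := E2_triangle (V := V) f hf h11
  exact clique_case G f K hK (by omega) U (by rw [hU, hKc]) h0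

end H717.Z3
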