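import Pool.Agent.H717.Z3.Alg

set_option autoImplicit false
set_option linter.unusedSectionVars false
set_option linter.unusedSimpArgs false

/-! Potentials, nearly constant functions and two independent swaps. -/

namespace H717.Z3

open Finset Function

variable {α V : Type*} [Fintype α] [DecidableEq α] [DecidableEq V]

/-- a function without two disjoint pairs of unequal values is constant off one point. -/
theorem nearly_const {β : Type*} (W : Finset V) (hW : 4 ≤ W.card) (g : V → β)
    (h : ∀ a ∈ W, ∀ b ∈ W, ∀ c ∈ W, ∀ d ∈ W, [a, b, c, d].Nodup → g a = g b ∨ g c = g d) :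
    ∃ c : β, ∃ w : V, ∀ u ∈ W, u ≠ w → g u = c := by
  classical
  by_cases hconst : ∀ u ∈ W, ∀ v ∈ W, g u = g v
  · obtain ⟨w, hw⟩ : W.Nonempty := by
      rw [← Finset.card_pos]; omega
    exact ⟨g w, w, fun u hu _ => hconst u hu w hw⟩
  · push Not at hconst
    obtain ⟨u, hu, v, hv, huv⟩ := hconst
    have huv' : u ≠ v := fun e => huv (by rw [e])
    -- two others
    have hcard : 1 < (W \ {u, v}).card := by
      have h1 := Finset.le_card_sdiff ({u, v} : Finset V) W
      have h2 : ({u, v} : Finset V).card ≤ 2 := Finset.card_le_two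
      omega
    obtain ⟨x, hx, y, hy, hxy⟩ := Finset.one_lt_card.mp hcard
    simp only [Finset.mem_sdiff, Finset.mem_insert, Finset.mem_singleton, not_or] at hx hy
    obtain ⟨hxW, hxu, hxv⟩ := hx
    obtain ⟨hyW, hyu, hyv⟩ := hy
    have others : ∀ z ∈ W, z ≠ u → z ≠ v → g z = g x := by
      intro z hz hzu hzv
      by_cases hzx : z = x
      · rw [hzx]
      · have := h u hu v hv z hz x hxW (by
          simp only [List.nodup_cons, List.mem_cons, List.not_mem_nil, or_false, not_or,
            List.nodup_nil, not_false_eq_true, and_true]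
          exact ⟨⟨huv', Ne.symm hzu, Ne.symm hxu⟩, ⟨Ne.symm hzv, Ne.symm hxv⟩, hzx⟩)
        rcases this with h1 | h1
        · exact absurd h1 huv
        · exact h1
    have hyx : g y = g x := others y hyW hyu hyv
    have := h u hu x hxW v hv y hyW (by
          simp only [List.nodup_cons, List.mem_cons, List.not_mem_nil, or_false, not_or,
            List.nodup_nil, not_false_eq_true, and_true]
          exact ⟨⟨Ne.symm hxu, huv', Ne.symm hyu⟩, ⟨hxv, hxy⟩, Ne.symm hyv⟩)
    rcases this with h1 | h1
    · refine ⟨g x, v, fun z hz hzv => ?_⟩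
      by_cases hzu : z = u
      · rw [hzu, h1]
      · exact others z hz hzu hzv
    · refine ⟨g x, u, fun z hz hzu => ?_⟩
      by_cases hzv : z = v
      · rw [hzv, h1, hyx]
      · exact others z hz hzu hzv

/-- if all mixed differences vanish on `W` then `f` comes from a potential on `W`. -/
theorem potential (f : V → V → ZMod 3) (hf : ∀ u v, f u v = f v u) (W : Finset V)
    (hW : 3 ≤ W.card)
    (h : ∀ a ∈ W, ∀ c ∈ W, ∀ b ∈ W, ∀ d ∈ W, [a, c, b, d].Nodup → D f a c b d = 0) :
    ∃ g : V → ZMod 3, ∀ u ∈ W, ∀ v ∈ W, u ≠ v → f u v = g u + g v := by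
  classical
  obtain ⟨r, hr, s, hs, t, ht, hrs, hrt, hst⟩ := Finset.two_lt_card.mp (by omega : 2 < W.card)
  have h3 := three_zero
  let τ : V → V → ZMod 3 := fun u v => f u v - f u r - f v r
  have τsym : ∀ u v, τ u v = τ v u := by
    intro u v; simp only [τ]; rw [hf u v]; ring
  have τeq : ∀ u ∈ W, ∀ v ∈ W, ∀ v' ∈ W, u ≠ r → v ≠ r → v' ≠ r → u ≠ v → u ≠ v' →
      τ u v = τ u v' := by
    intro u hu v hv v' hv' hur hvr hv'r huv huv'
    by_cases hvv : v = v'
    · rw [hvv]
    · have := h u hu r hr v hv v' hv' (by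
          simp only [List.nodup_cons, List.mem_cons, List.not_mem_nil, or_false, not_or,
            List.nodup_nil, not_false_eq_true, and_true]
          exact ⟨⟨hur, huv, huv'⟩, ⟨Ne.symm hvr, Ne.symm hv'r⟩, hvv⟩)
      unfold D at this
      simp only [τ]
      rw [hf v r, hf v' r]
      linear_combination this
  have τconst : ∀ u ∈ W, ∀ v ∈ W, u ≠ r → v ≠ r → u ≠ v → τ u v = τ s t := by
    intro u hu v hv hur hvr huv
    by_cases hus : u = s
    · subst hus
      exact τeq u hu v hv t ht hur hvr (Ne.symm hrt) huv hst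
    · have e1 : τ u v = τ u s := τeq u hu v hv s hs hur hvr (Ne.symm hrs) huv hus
      rw [e1, τsym u s]
      exact τeq s hs u hu t ht (Ne.symm hrs) hur (Ne.symm hrt) (Ne.symm hus) hst
  refine ⟨fun u => if u = r then τ s t else f u r - τ s t, ?_⟩
  intro u hu v hv huv
  by_cases hur : u = r
  · subst hur
    simp only [if_true, if_neg (Ne.symm huv)]
    rw [hf u v]; ring
  · by_cases hvr : v = r
    · subst hvr
      simp only [if_true, if_neg huv]
      ring
    · simp only [if_neg hur, if_neg hvr]
      have := τconst u hu v hv hur hvr huv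
      simp only [τ] at this ⊢
      linear_combination this + (f s t - f s r - f t r) * h3

theorem cd2 : ∀ s e1 e2 : ZMod 3, e1 ≠ 0 → e2 ≠ 0 →
    s = 0 ∨ s + e1 = 0 ∨ s + e2 = 0 ∨ s + e1 + e2 = 0 := by decide

/-- the sum with weights of total zero can be made zero with two spare vertices. -/
theorem lemP (d : α → ZMod 3) (hd : ∑ x, d x = 0) (W : Finset V)
    (hW : Fintype.card α + 2 ≤ W.card) (g : V → ZMod 3) :
    ∃ φ : α → V, Injective φ ∧ (∀ x, φ x ∈ W) ∧ ∑ x, d x * g (φ x) = 0 := by
  classical
  -- a general embedding into a finset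
  have emb : ∀ W' : Finset V, Fintype.card α ≤ W'.card →
      ∃ φ : α → V, Injective φ ∧ ∀ x, φ x ∈ W' := by
    intro W' hW'
    obtain ⟨t, ht, htc⟩ := Finset.exists_subset_card_eq hW'
    have e := Fintype.equivFinOfCardEq (α := α) htc.symm
    have e2 := t.equivFin
    refine ⟨fun x => (e2.symm (e x) : V), ?_, fun x => ht (e2.symm (e x)).2⟩
    exact Subtype.val_injective.comp (e2.symm.injective.comp e.injective)
  by_cases hd0 : ∀ x, d x = 0
  · obtain ⟨φ, h1, h2⟩ := emb W (by omega)
    exact ⟨φ, h1, h2, by simp [hd0]⟩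
  push Not at hd0
  obtain ⟨x1, hx1⟩ := hd0
  have hx2 : ∃ x2, x2 ≠ x1 ∧ d x2 ≠ 0 := by
    by_contra hcon
    push Not at hcon
    have : ∑ x, d x = d x1 := Finset.sum_eq_single x1 (fun b _ hb => hcon b hb) (by simp)
    exact hx1 (this ▸ hd)
  obtain ⟨x2, h12, hx2⟩ := hx2
  have hα : 2 ≤ Fintype.card α := by
    have : ({x1, x2} : Finset α).card = 2 := Finset.card_pair (Ne.symm h12)
    rw [← this]; exact Finset.card_le_univ _
  by_cases hg : ∀ a ∈ W, ∀ b ∈ W, ∀ c ∈ W, ∀ d ∈ W, [a, b, c, d].Nodup → g a = g b ∨ g c = g d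
  · obtain ⟨c, w, hcw⟩ := nearly_const W (by omega) g hg
    obtain ⟨φ, h1, h2⟩ := emb (W.erase w) (by
      have := Finset.pred_card_le_card_erase (s := W) (a := w)
      omega)
    refine ⟨φ, h1, fun x => Finset.mem_of_mem_erase (h2 x), ?_⟩
    have : ∀ x, g (φ x) = c := fun x =>
      hcw _ (Finset.mem_of_mem_erase (h2 x)) (Finset.ne_of_mem_erase (h2 x))
    simp only [this]
    rw [← Finset.sum_mul, hd, zero_mul]
  · push Not at hg
    obtain ⟨a1, ha1, b1, hb1, a2, ha2, b2, hb2, hnd, hg1, hg2⟩ := hg
    simp only [List.nodup_cons, List.mem_cons, List.not_mem_nil, or_false, not_or,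
            List.nodup_nil, not_false_eq_true, and_true] at hnd
    obtain ⟨⟨n1, n2, n3⟩, ⟨n4, n5⟩, n6⟩ := hnd
    have hbb : ({b1, b2} : Finset V).card = 2 := Finset.card_pair n5
    obtain ⟨t, ht1, ht2, ht3⟩ := Finset.exists_subsuperset_card_eq (s := {a1, a2})
      (t := W \ {b1, b2}) (n := Fintype.card α) (by
        intro v hv
        simp only [Finset.mem_insert, Finset.mem_singleton] at hv
        simp only [Finset.mem_sdiff, Finset.mem_insert, Finset.mem_singleton]
        rcases hv with rfl | rfl
        · exact ⟨ha1, by tauto⟩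
        · exact ⟨ha2, by tauto⟩)
      (by rw [Finset.card_pair n2]; exact hα)
      (by
        have := Finset.le_card_sdiff ({b1, b2} : Finset V) W
        omega)
    obtain ⟨e, he⟩ := Finset.exists_equiv_extend_of_card_eq (s := {x1, x2})
      (f := fun x => if x = x1 then a1 else a2)
      ht3.symm (by
        intro v hv
        simp only [Finset.mem_image, Finset.mem_insert, Finset.mem_singleton] at hv
        obtain ⟨x, hx, rfl⟩ := hv
        apply ht1
        rcases hx with rfl | rfl
        · simp
        · simp [h12]) (by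
        intro x hx y hy hxy
        simp only [Finset.coe_insert, Finset.coe_singleton, Set.mem_insert_iff,
          Set.mem_singleton_iff] at hx hy
        rcases hx with rfl | rfl <;> rcases hy with rfl | rfl
        · rfl
        · simp only [if_true, if_neg h12] at hxy; exact absurd hxy n2
        · simp only [if_true, if_neg h12] at hxy; exact absurd hxy.symm n2
        · rfl)
    set φ : α → V := fun x => (e x : V) with hφdef
    have hφ : Injective φ := Subtype.val_injective.comp e.injective
    have p1 : φ x1 = a1 := by rw [hφdef]; simp only; rw [he x1 (by simp)]; simp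
    have p2 : φ x2 = a2 := by rw [hφdef]; simp only; rw [he x2 (by simp)]; simp [h12]
    have hmem : ∀ y, φ y ∈ W ∧ φ y ≠ b1 ∧ φ y ≠ b2 := by
      intro y
      have := ht2 (e y).2
      simpa only [Finset.mem_sdiff, Finset.mem_insert, Finset.mem_singleton, not_or] using this
    have upd : ∀ (ψ : α → V) (x : α) (b : V),
        ∑ y, d y * g (update ψ x b y) = ∑ y, d y * g (ψ y) + d x * (g b - g (ψ x)) := by
      intro ψ x b
      have key : ∀ y, d y * g (update ψ x b y) = d y * g (ψ y) +
          (if y = x then d x * (g b - g (ψ x)) else 0) := by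
        intro y
        by_cases hy : y = x
        · subst hy; simp only [update_self, if_true]; ring
        · simp only [update_of_ne hy, if_neg hy]; ring
      simp only [key, Finset.sum_add_distrib]
      simp
    have i1 := update_inj hφ x1 b1 (fun y => (hmem y).2.1)
    have i2 := update_inj hφ x2 b2 (fun y => (hmem y).2.2)
    have i12 := update_inj i1 x2 b2 (update_avoid x1 b1 b2 (fun y => (hmem y).2.2) n5)
    have m1 : ∀ y, update φ x1 b1 y ∈ W := by
      intro y
      by_cases hy : y = x1
      · rw [hy, update_self]; exact hb1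
      · rw [update_of_ne hy]; exact (hmem y).1
    have m2 : ∀ y, update φ x2 b2 y ∈ W := by
      intro y
      by_cases hy : y = x2
      · rw [hy, update_self]; exact hb2
      · rw [update_of_ne hy]; exact (hmem y).1
    have m12 : ∀ y, update (update φ x1 b1) x2 b2 y ∈ W := by
      intro y
      by_cases hy : y = x2
      · rw [hy, update_self]; exact hb2
      · rw [update_of_ne hy]; exact m1 y
    have e1 : d x1 * (g b1 - g (φ x1)) ≠ 0 := by
      rw [p1]; exact mul_ne_zero hx1 (sub_ne_zero.mpr (Ne.symm hg1))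
    have e2 : d x2 * (g b2 - g (φ x2)) ≠ 0 := by
      rw [p2]; exact mul_ne_zero hx2 (sub_ne_zero.mpr (Ne.symm hg2))
    rcases cd2 (∑ y, d y * g (φ y)) _ _ e1 e2 with h | h | h | h
    · exact ⟨φ, hφ, fun y => (hmem y).1, h⟩
    · exact ⟨_, i1, m1, by rw [upd]; exact h⟩
    · exact ⟨_, i2, m2, by rw [upd]; exact h⟩
    · refine ⟨_, i12, m12, ?_⟩
      rw [upd, upd, update_of_ne h12]; exact h

/-- the potential case. -/
theorem pot_case (A : α → α → ZMod 3) (f : V → V → ZMod 3) (hA : ∀ x y, A x y = A y x)
    (hA0 : ∀ x, A x x = 0) (hf : ∀ u v, f u v = f v u) (hE : ∑ x, ∑ y, A x y = 0)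
    (W : Finset V) (hW : Fintype.card α + 2 ≤ W.card)
    (h : ∀ a ∈ W, ∀ c ∈ W, ∀ b ∈ W, ∀ d ∈ W, [a, c, b, d].Nodup → D f a c b d = 0) :
    ∃ φ : α → V, Injective φ ∧ T A f φ = 0 := by
  classical
  by_cases hα : 1 ≤ Fintype.card α
  · obtain ⟨g, hg⟩ := potential f hf W (by omega) h
    obtain ⟨φ, hφ, hφW, hs⟩ := lemP (fun x => ∑ y, A x y) hE W hW g
    refine ⟨φ, hφ, ?_⟩
    unfold T
    have key : ∀ x y, A x y * f (φ x) (φ y) = A x y * g (φ x) + A x y * g (φ y) := by
      intro x y
      by_cases hxy : x = y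
      · subst hxy; simp [hA0]
      · rw [hg _ (hφW x) _ (hφW y) (fun e => hxy (hφ e))]; ring
    simp only [key, Finset.sum_add_distrib]
    have h2 : ∑ x, ∑ y, A x y * g (φ y) = ∑ x, ∑ y, A x y * g (φ x) := by
      rw [Finset.sum_comm]
      refine Finset.sum_congr rfl fun x _ => Finset.sum_congr rfl fun y _ => ?_
      rw [hA]
    rw [h2]
    simp only [← Finset.sum_mul]
    rw [hs]; simp
  · have : IsEmpty α := by
      rw [← Fintype.card_eq_zero_iff]; omega
    exact ⟨fun x => (this.false x).elim, fun x => (this.false x).elim, by simp [T]⟩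

end H717.Z3
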