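import Pool.Agent.H717.Z3.Types

set_option autoImplicit false
set_option linter.unusedSectionVars false
set_option linter.unusedSimpArgs false

/-! A small verified search over multisets of vectors of `F_3^2`. -/

namespace H717.Z3

open Finset Function

def all9 : List F2 := [(0,0),(0,1),(0,2),(1,0),(1,1),(1,2),(2,0),(2,1),(2,2)]

def code (u : F2) : ℕ := 3 * u.1.val + u.2.val

def cnd (r : ℕ) (test : List F2 → Bool) (a : F2) (t : List F2) : Bool :=
  (match t with
    | [] => true
    | b :: _ => Nat.ble (code a) (code b)) &&
  (t.sublistsLen r).all (fun s => test (a :: s))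

def srch (r : ℕ) (test : List F2 → Bool) : ℕ → List F2 → Bool
  | 0, _ => false
  | k + 1, t => all9.all (fun a => !(cnd r test a t) || srch r test k (a :: t))

def AllC (r : ℕ) (test : List F2 → Bool) : List F2 → Prop
  | [] => True
  | a :: t => cnd r test a t = true ∧ AllC r test t

theorem mem_all9 : ∀ u : F2, u ∈ all9 := by decide

theorem AllC.tail {r : ℕ} {test : List F2 → Bool} : ∀ (m t : List F2),
    AllC r test (m ++ t) → AllC r test t
  | [], _, h => h
  | _ :: m, t, h => AllC.tail m t h.2

theorem srch_sound (r : ℕ) (test : List F2 → Bool) : ∀ (k : ℕ) (t : List F2),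
    srch r test k t = true → ∀ m : List F2, m.length = k → ¬ AllC r test (m ++ t) := by
  intro k
  induction k with
  | zero => intro t h; simp [srch] at h
  | succ k ih =>
    intro t h m hm hC
    rcases List.eq_nil_or_concat m with rfl | ⟨m', a, rfl⟩
    · simp at hm
    · rw [List.concat_eq_append] at hm hC
      have hm' : m'.length = k := by simpa using hm
      have e : m' ++ [a] ++ t = m' ++ (a :: t) := by simp
      rw [e] at hC
      have h1 := AllC.tail m' (a :: t) hC
      have h2 := h
      rw [srch, List.all_eq_true] at h2
      have h3 := h2 a (mem_all9 a)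
      rw [h1.1] at h3
      simp only [Bool.not_true, Bool.false_or] at h3
      exact ih (a :: t) h3 m' hm' hC

variable {V : Type*} [DecidableEq V]

theorem AllC_of_sorted (r : ℕ) (test : List F2 → Bool) (v : V → F2) : ∀ L : List V,
    L.Pairwise (fun x y => code (v x) ≤ code (v y)) →
    (∀ l : List V, l.Sublist L → l.length = r + 1 → test (l.map v) = true) →
    AllC r test (L.map v) := by
  intro L
  induction L with
  | nil => intro _ _; trivial
  | cons x L ih =>
    intro hs ht
    rw [List.pairwise_cons] at hs
    refine ⟨?_, ih hs.2 (fun l hl hlen => ht l (hl.cons x) hlen)⟩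
    unfold cnd
    rw [Bool.and_eq_true]
    refine ⟨?_, ?_⟩
    · cases L with
      | nil => rfl
      | cons y L => exact Nat.ble_eq.mpr (hs.1 y (by simp))
    · rw [List.all_eq_true]
      intro s hs'
      rw [List.mem_sublistsLen] at hs'
      obtain ⟨h1, h2⟩ := hs'
      obtain ⟨l', hl', rfl⟩ := List.sublist_map_iff.mp h1
      have := ht (x :: l') (hl'.cons_cons x) (by simpa using h2)
      simpa using this

/-- a successful search finds a small zero set in every family. -/
theorem find (r N : ℕ) (test : List F2 → Bool) (h : srch r test N [] = true) (X : Finset V)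
    (hX : X.card = N) (v : V → F2) :
    ∃ l : List V, l.Nodup ∧ (∀ x ∈ l, x ∈ X) ∧ l.length = r + 1 ∧ test (l.map v) = false := by
  classical
  by_contra hcon
  push Not at hcon
  let R : V → V → Prop := fun x y => code (v x) ≤ code (v y)
  let L := X.toList.insertionSort R
  have hperm : L.Perm X.toList := List.perm_insertionSort R _
  have hsort : L.Pairwise R := by
    have : Std.Total R := ⟨fun x y => le_total _ _⟩
    have : IsTrans V R := ⟨fun x y z h1 h2 => le_trans h1 h2⟩
    exact List.pairwise_insertionSort R _
  have hnd : L.Nodup := hperm.nodup_iff.mpr X.nodup_toList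
  have hC := AllC_of_sorted r test v L hsort (by
    intro l hl hlen
    have h1 := hcon l (hl.nodup hnd) (fun x hx => by
      have : x ∈ L := hl.subset hx
      have := hperm.mem_iff.mp this
      simpa using this) hlen
    cases ht : test (l.map v)
    · exact absurd ht h1
    · rfl)
  refine srch_sound r test N [] h (L.map v) ?_ (by simpa using hC)
  rw [List.length_map, hperm.length_eq, Finset.length_toList, hX]

def test4 (l : List F2) : Bool :=
  !decide ((l.map Prod.fst).sum * (l.map Prod.snd).sum - (l.map fun u => u.1 * u.2).sum = 0)

def testR (ε : ZMod 3) (l : List F2) : Bool :=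
  !decide ((l.map Prod.fst).sum + ε * (l.map Prod.snd).sum ^ 2 = 0)

def testE (l : List F2) : Bool :=
  !decide ((l.map Prod.fst).sum = 0 ∧ (l.map Prod.snd).sum = 0)

set_option maxRecDepth 100000

theorem run4 : srch 3 test4 7 [] = true := by decide +kernel

theorem runR : ∀ ε : ZMod 3, srch 2 (testR ε) 6 [] = true := by decide +kernel

theorem runE : srch 2 testE 9 [] = true := by decide +kernel

end H717.Z3
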