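import Pool.Agent.H717.Z3.Pot

set_option autoImplicit false
set_option linter.unusedSectionVars false
set_option linter.unusedSimpArgs false

/-! The structure of a family of vectors of `F_3^2` under the hafnian relation. -/

namespace H717.Z3

open Finset Function

abbrev F2 := ZMod 3 × ZMod 3

def bil (u w : F2) : ZMod 3 := u.1 * w.2 + u.2 * w.1

def hfn (a b c d : F2) : ZMod 3 :=
  bil a b * bil c d + bil a c * bil b d + bil a d * bil b c

/-- the linear form vanishing on the direction `δ`. -/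
def ell (δ : Fin 4) (u : F2) : ZMod 3 :=
  if δ = 0 then u.2 else if δ = 1 then u.1 - u.2 else if δ = 2 then u.1 + u.2 else u.1

/-- direction of a vector. -/
def dir (u : F2) : Fin 4 :=
  if u.1 = 0 then 3 else if u.2 = 0 then 0 else if u.1 = u.2 then 1 else 2

theorem ell_sub (δ : Fin 4) (u w : F2) : ell δ (u - w) = ell δ u - ell δ w := by
  unfold ell
  split_ifs <;> simp only [Prod.fst_sub, Prod.snd_sub] <;> ring

theorem ell_dir : ∀ u : F2, ell (dir u) u = 0 := by decide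

theorem dir_of_ell : ∀ (δ : Fin 4) (u : F2), u ≠ 0 → ell δ u = 0 → dir u = δ := by decide

theorem key_hfn : ∀ (δ : Fin 4) (u0 : F2), u0 ≠ 0 → ell δ u0 = 0 → ∀ u1 : F2, u1 ≠ 0 →
    ell δ u1 = 0 → ∀ u2 : F2, ell δ u2 ≠ 0 → ∀ u3 : F2, ell δ u3 ≠ 0 →
    hfn u0 u1 u2 u3 ≠ 0 := by decide

variable {V : Type*} [DecidableEq V]

/-- the hafnian relation on `X`. -/
def HH (X : Finset V) (v : V → F2) : Prop :=
  ∀ x0 ∈ X, ∀ y0 ∈ X, ∀ x1 ∈ X, ∀ y1 ∈ X, ∀ x2 ∈ X, ∀ y2 ∈ X, ∀ x3 ∈ X, ∀ y3 ∈ X,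
    [x0, y0, x1, y1, x2, y2, x3, y3].Nodup →
    hfn (v x0 - v y0) (v x1 - v y1) (v x2 - v y2) (v x3 - v y3) = 0

theorem HH.mono {X Y : Finset V} {v : V → F2} (h : HH X v) (hY : Y ⊆ X) : HH Y v :=
  fun x0 h0 y0 g0 x1 h1 y1 g1 x2 h2 y2 g2 x3 h3 y3 g3 nd =>
    h x0 (hY h0) y0 (hY g0) x1 (hY h1) y1 (hY g1) x2 (hY h2) y2 (hY g2) x3 (hY h3) y3 (hY g3) nd

theorem Kp {X : Finset V} {v : V → F2} (hH : HH X v) (δ : Fin 4) {x0 y0 x1 y1 x2 y2 x3 y3 : V}
    (mx0 : x0 ∈ X) (my0 : y0 ∈ X) (mx1 : x1 ∈ X) (my1 : y1 ∈ X) (mx2 : x2 ∈ X) (my2 : y2 ∈ X)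
    (mx3 : x3 ∈ X) (my3 : y3 ∈ X) (nd : [x0, y0, x1, y1, x2, y2, x3, y3].Nodup)
    (h0 : v x0 ≠ v y0) (e0 : ell δ (v x0) = ell δ (v y0))
    (h1 : v x1 ≠ v y1) (e1 : ell δ (v x1) = ell δ (v y1))
    (c2 : ell δ (v x2) ≠ ell δ (v y2)) (c3 : ell δ (v x3) ≠ ell δ (v y3)) : False := by
  have hh := hH x0 mx0 y0 my0 x1 mx1 y1 my1 x2 mx2 y2 my2 x3 mx3 y3 my3 nd
  refine key_hfn δ (v x0 - v y0) (sub_ne_zero.mpr h0) (by rw [ell_sub, e0, sub_self])
    (v x1 - v y1) (sub_ne_zero.mpr h1) (by rw [ell_sub, e1, sub_self])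
    (v x2 - v y2) (by rw [ell_sub]; exact sub_ne_zero.mpr c2)
    (v x3 - v y3) (by rw [ell_sub]; exact sub_ne_zero.mpr c3) hh

/-- a matching of four unequal pairs and one more element. -/
structure Mat (X : Finset V) (v : V → F2) (P : Fin 9 → V) : Prop where
  inj : Injective P
  mem : ∀ i, P i ∈ X
  n0 : v (P 0) ≠ v (P 1)
  n1 : v (P 2) ≠ v (P 3)
  n2 : v (P 4) ≠ v (P 5)
  n3 : v (P 6) ≠ v (P 7)

/-- all but one point on a line. -/
def OnLine (X : Finset V) (v : V → F2) : Prop :=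
  ∃ (δ : Fin 4) (e : ZMod 3) (w : V), ∀ x ∈ X, x ≠ w → ell δ (v x) = e


theorem nd8 {P : Fin 9 → V} (hP : Injective P) (a0 a1 a2 a3 a4 a5 a6 a7 : Fin 9)
    (h : [a0, a1, a2, a3, a4, a5, a6, a7].Nodup) :
    [P a0, P a1, P a2, P a3, P a4, P a5, P a6, P a7].Nodup := List.Nodup.map hP h

theorem caseI_two {X : Finset V} {v : V → F2} (hH : HH X v) {P : Fin 9 → V} (hP : Mat X v P)
    (δ : Fin 4) (e0 : ell δ (v (P 0)) = ell δ (v (P 1))) (e1 : ell δ (v (P 2)) = ell δ (v (P 3)))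
    (e2 : ell δ (v (P 4)) = ell δ (v (P 5))) : ell δ (v (P 0)) = ell δ (v (P 2)) := by
  by_contra hne
  by_cases e3 : ell δ (v (P 6)) = ell δ (v (P 7))
  · exact Kp hH δ (hP.mem 4) (hP.mem 5) (hP.mem 6) (hP.mem 7) (hP.mem 0) (hP.mem 2) (hP.mem 1)
      (hP.mem 3) (nd8 hP.inj _ _ _ _ _ _ _ _ (by decide)) hP.n2 e2 hP.n3 e3 hne
      (by rw [← e0, ← e1]; exact hne)
  · by_cases ez : ell δ (v (P 8)) = ell δ (v (P 0))
    · exact Kp hH δ (hP.mem 0) (hP.mem 1) (hP.mem 4) (hP.mem 5) (hP.mem 8) (hP.mem 2) (hP.mem 6)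
        (hP.mem 7) (nd8 hP.inj _ _ _ _ _ _ _ _ (by decide)) hP.n0 e0 hP.n2 e2
        (by rw [ez]; exact hne) e3
    · exact Kp hH δ (hP.mem 2) (hP.mem 3) (hP.mem 4) (hP.mem 5) (hP.mem 8) (hP.mem 0) (hP.mem 6)
        (hP.mem 7) (nd8 hP.inj _ _ _ _ _ _ _ _ (by decide)) hP.n1 e1 hP.n2 e2 ez e3

/-- reindexing of a matching. -/
theorem Mat.swap01 {X : Finset V} {v : V → F2} {P : Fin 9 → V} (hP : Mat X v P) :
    Mat X v (P ∘ ![2, 3, 0, 1, 4, 5, 6, 7, 8]) :=
  ⟨hP.inj.comp (by decide), fun i => hP.mem _, hP.n1, hP.n0, hP.n2, hP.n3⟩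

theorem Mat.swap12 {X : Finset V} {v : V → F2} {P : Fin 9 → V} (hP : Mat X v P) :
    Mat X v (P ∘ ![0, 1, 4, 5, 2, 3, 6, 7, 8]) :=
  ⟨hP.inj.comp (by decide), fun i => hP.mem _, hP.n0, hP.n2, hP.n1, hP.n3⟩

theorem Mat.swap23 {X : Finset V} {v : V → F2} {P : Fin 9 → V} (hP : Mat X v P) :
    Mat X v (P ∘ ![0, 1, 2, 3, 6, 7, 4, 5, 8]) :=
  ⟨hP.inj.comp (by decide), fun i => hP.mem _, hP.n0, hP.n1, hP.n3, hP.n2⟩

theorem Mat.flip0 {X : Finset V} {v : V → F2} {P : Fin 9 → V} (hP : Mat X v P) :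
    Mat X v (P ∘ ![1, 0, 2, 3, 4, 5, 6, 7, 8]) :=
  ⟨hP.inj.comp (by decide), fun i => hP.mem _, hP.n0.symm, hP.n1, hP.n2, hP.n3⟩

theorem Mat.flip1 {X : Finset V} {v : V → F2} {P : Fin 9 → V} (hP : Mat X v P) :
    Mat X v (P ∘ ![0, 1, 3, 2, 4, 5, 6, 7, 8]) :=
  ⟨hP.inj.comp (by decide), fun i => hP.mem _, hP.n0, hP.n1.symm, hP.n2, hP.n3⟩

/-- replace the second vertex of pair 0 by the leftover vertex. -/
theorem Mat.rep0 {X : Finset V} {v : V → F2} {P : Fin 9 → V} (hP : Mat X v P)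
    (h : v (P 8) ≠ v (P 0)) : Mat X v (P ∘ ![8, 0, 2, 3, 4, 5, 6, 7, 1]) :=
  ⟨hP.inj.comp (by decide), fun i => hP.mem _, h, hP.n1, hP.n2, hP.n3⟩

theorem caseI {X : Finset V} {v : V → F2} (hH : HH X v) {P : Fin 9 → V} (hP : Mat X v P)
    (δ : Fin 4) (e0 : ell δ (v (P 0)) = ell δ (v (P 1))) (e1 : ell δ (v (P 2)) = ell δ (v (P 3)))
    (e2 : ell δ (v (P 4)) = ell δ (v (P 5))) : OnLine X v := by
  have q1 := caseI_two hH hP δ e0 e1 e2
  have q2 : ell δ (v (P 0)) = ell δ (v (P 4)) := caseI_two hH hP.swap12 δ e0 e2 e1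
  -- at most one element off the line
  by_cases hall : ∀ x ∈ X, ell δ (v x) = ell δ (v (P 0))
  · exact ⟨δ, _, P 0, fun x hx _ => hall x hx⟩
  · push Not at hall
    obtain ⟨s, hs, hs'⟩ := hall
    refine ⟨δ, ell δ (v (P 0)), s, fun t ht hts => ?_⟩
    by_contra ht'
    have sne : ∀ i : Fin 9, i.val < 6 → s ≠ P i := by
      intro i hi h
      apply hs'
      rw [h]
      fin_cases i <;> simp at hi ⊢
      · exact e0.symm
      · exact q1.symm
      · rw [q1]; exact e1.symm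
      · exact q2.symm
      · rw [q2]; exact e2.symm
    have tne : ∀ i : Fin 9, i.val < 6 → t ≠ P i := by
      intro i hi h
      apply ht'
      rw [h]
      fin_cases i <;> simp at hi ⊢
      · exact e0.symm
      · exact q1.symm
      · rw [q1]; exact e1.symm
      · exact q2.symm
      · rw [q2]; exact e2.symm
    have inj := hP.inj
    refine Kp hH δ (hP.mem 2) (hP.mem 3) (hP.mem 4) (hP.mem 5) hs (hP.mem 0) ht (hP.mem 1) ?_
      hP.n1 e1 hP.n2 e2 hs' (by rw [← e0]; exact ht')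
    have s0 := sne 0 (by decide)
    have s1 := sne 1 (by decide)
    have s2 := sne 2 (by decide)
    have s3 := sne 3 (by decide)
    have s4 := sne 4 (by decide)
    have s5 := sne 5 (by decide)
    have t0 := tne 0 (by decide)
    have t1 := tne 1 (by decide)
    have t2 := tne 2 (by decide)
    have t3 := tne 3 (by decide)
    have t4 := tne 4 (by decide)
    have t5 := tne 5 (by decide)
    have st : s ≠ t := Ne.symm hts
    simp only [List.nodup_cons, List.mem_cons, List.not_mem_nil, or_false, not_or,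
            List.nodup_nil, not_false_eq_true, and_true, inj.eq_iff]
    refine ⟨⟨by decide, by decide, by decide, s2.symm, by decide, t2.symm, by decide⟩,
      ⟨by decide, by decide, s3.symm, by decide, t3.symm, by decide⟩,
      ⟨by decide, s4.symm, by decide, t4.symm, by decide⟩,
      ⟨s5.symm, by decide, t5.symm, by decide⟩, ⟨s0, st, s1⟩, ⟨t0.symm, by decide⟩, t1⟩

/-- if not on a line, the first two pairs have different directions. -/
theorem dirs_ne {X : Finset V} {v : V → F2} (hH : HH X v) (hL : ¬ OnLine X v) {P : Fin 9 → V}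
    (hP : Mat X v P) (δ : Fin 4) (e0 : ell δ (v (P 0)) = ell δ (v (P 1))) :
    ell δ (v (P 2)) ≠ ell δ (v (P 3)) := by
  intro e1
  by_cases e2 : ell δ (v (P 4)) = ell δ (v (P 5))
  · exact hL (caseI hH hP δ e0 e1 e2)
  · by_cases e3 : ell δ (v (P 6)) = ell δ (v (P 7))
    · exact hL (caseI hH hP.swap23 δ e0 e1 e3)
    · exact Kp hH δ (hP.mem 0) (hP.mem 1) (hP.mem 2) (hP.mem 3) (hP.mem 4) (hP.mem 5) (hP.mem 6)
        (hP.mem 7) (nd8 hP.inj _ _ _ _ _ _ _ _ (by decide)) hP.n0 e0 hP.n1 e1 e2 e3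

theorem pig4' : ∀ a b c d e : Fin 4, (a ≠ b ∧ a ≠ c ∧ a ≠ d ∧ b ≠ c ∧ b ≠ d ∧ c ≠ d) →
    (e ≠ b ∧ e ≠ c ∧ e ≠ d) → e = a := by decide

theorem pig4 (a b c d e : Fin 4) (h1 : a ≠ b) (h2 : a ≠ c) (h3 : a ≠ d) (h4 : b ≠ c)
    (h5 : b ≠ d) (h6 : c ≠ d) (h7 : e ≠ b) (h8 : e ≠ c) (h9 : e ≠ d) : e = a :=
  pig4' a b c d e ⟨h1, h2, h3, h4, h5, h6⟩ ⟨h7, h8, h9⟩

theorem ell_dir_pair (v : V → F2) (x y : V) : ell (dir (v x - v y)) (v x) = ell (dir (v x - v y)) (v y) := by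
  have := ell_dir (v x - v y)
  rw [ell_sub] at this
  exact sub_eq_zero.mp this

theorem dir_eq_of_ell (v : V → F2) (δ : Fin 4) (x y : V) (h : v x ≠ v y)
    (e : ell δ (v x) = ell δ (v y)) : dir (v x - v y) = δ :=
  dir_of_ell δ _ (sub_ne_zero.mpr h) (by rw [ell_sub, e, sub_self])

theorem dirs_ne' {X : Finset V} {v : V → F2} (hH : HH X v) (hL : ¬ OnLine X v) {P : Fin 9 → V}
    (hP : Mat X v P) : dir (v (P 0) - v (P 1)) ≠ dir (v (P 2) - v (P 3)) := by
  intro h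
  refine dirs_ne hH hL hP (dir (v (P 0) - v (P 1))) (ell_dir_pair v _ _) ?_
  rw [h]; exact ell_dir_pair v _ _

/-- all six inequalities between directions. -/
theorem dirs_all {X : Finset V} {v : V → F2} (hH : HH X v) (hL : ¬ OnLine X v) {P : Fin 9 → V}
    (hP : Mat X v P) :
    dir (v (P 0) - v (P 1)) ≠ dir (v (P 2) - v (P 3)) ∧
    dir (v (P 0) - v (P 1)) ≠ dir (v (P 4) - v (P 5)) ∧
    dir (v (P 0) - v (P 1)) ≠ dir (v (P 6) - v (P 7)) ∧
    dir (v (P 2) - v (P 3)) ≠ dir (v (P 4) - v (P 5)) ∧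
    dir (v (P 2) - v (P 3)) ≠ dir (v (P 6) - v (P 7)) ∧
    dir (v (P 4) - v (P 5)) ≠ dir (v (P 6) - v (P 7)) := by
  refine ⟨dirs_ne' hH hL hP, dirs_ne' hH hL hP.swap12, ?_, ?_, ?_, ?_⟩
  · exact dirs_ne' hH hL hP.swap23.swap12
  · exact dirs_ne' hH hL (hP.swap01.swap12)
  · exact dirs_ne' hH hL (hP.swap01.swap23.swap12)
  · exact dirs_ne' hH hL (hP.swap12.swap01.swap23.swap12)

/-- direction after replacement. -/
theorem rep_dir {X : Finset V} {v : V → F2} (hH : HH X v) (hL : ¬ OnLine X v) {P : Fin 9 → V}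
    (hP : Mat X v P) (h : v (P 8) ≠ v (P 0)) :
    dir (v (P 8) - v (P 0)) = dir (v (P 0) - v (P 1)) := by
  obtain ⟨a, b, c, d, e, f⟩ := dirs_all hH hL hP
  obtain ⟨a', b', c', -, -, -⟩ := dirs_all hH hL (hP.rep0 h)
  exact pig4 _ _ _ _ _ a b c d e f a' b' c'

/-- the leftover vertex lies on the line of pair 0. -/
theorem rep_line {X : Finset V} {v : V → F2} (hH : HH X v) (hL : ¬ OnLine X v) {P : Fin 9 → V}
    (hP : Mat X v P) :
    ell (dir (v (P 0) - v (P 1))) (v (P 8)) = ell (dir (v (P 0) - v (P 1))) (v (P 0)) := by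
  by_cases h : v (P 8) = v (P 0)
  · rw [h]
  · have := rep_dir hH hL hP h
    rw [← this]
    exact ell_dir_pair v _ _

theorem leftover {X : Finset V} {v : V → F2} (hH : HH X v) (hL : ¬ OnLine X v) {P : Fin 9 → V}
    (hP : Mat X v P) : v (P 8) = v (P 0) ∨ v (P 8) = v (P 1) := by
  by_contra hcon
  push Not at hcon
  obtain ⟨h0, h1⟩ := hcon
  -- `P 8` on the line of pair 1
  have l1 := rep_line hH hL hP.swap01
  simp only [Function.comp] at l1
  -- `P 1` on the line of pair 1, from the replaced matching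
  have l2 := rep_line hH hL (hP.rep0 h0).swap01
  simp only [Function.comp] at l2
  have l1' : ell (dir (v (P 2) - v (P 3))) (v (P 8)) = ell (dir (v (P 2) - v (P 3))) (v (P 2)) := l1
  have l2' : ell (dir (v (P 2) - v (P 3))) (v (P 1)) = ell (dir (v (P 2) - v (P 3))) (v (P 2)) := l2
  have d0 : dir (v (P 8) - v (P 1)) = dir (v (P 2) - v (P 3)) :=
    dir_eq_of_ell v _ _ _ h1 (by rw [l1', l2'])
  have d1 := rep_dir hH hL hP.flip0 h1
  have d1' : dir (v (P 8) - v (P 1)) = dir (v (P 1) - v (P 0)) := d1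
  have hd := dirs_ne' hH hL hP.flip0
  exact hd (d1'.symm.trans d0)

theorem mkMat {X : Finset V} {v : V → F2} {p0 p1 p2 p3 p4 p5 p6 p7 p8 : V}
    (nd : [p0, p1, p2, p3, p4, p5, p6, p7, p8].Nodup)
    (m0 : p0 ∈ X) (m1 : p1 ∈ X) (m2 : p2 ∈ X) (m3 : p3 ∈ X) (m4 : p4 ∈ X) (m5 : p5 ∈ X)
    (m6 : p6 ∈ X) (m7 : p7 ∈ X) (m8 : p8 ∈ X) (n0 : v p0 ≠ v p1) (n1 : v p2 ≠ v p3)
    (n2 : v p4 ≠ v p5) (n3 : v p6 ≠ v p7) : ∃ P, Mat X v P := by
  refine ⟨![p0, p1, p2, p3, p4, p5, p6, p7, p8], ?_, ?_, n0, n1, n2, n3⟩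
  · rw [← List.nodup_ofFn]
    exact nd
  · intro i
    fin_cases i <;> assumption

theorem exists_mat {X : Finset V} {v : V → F2} (hX : 9 ≤ X.card)
    (hA : ∀ (a : F2) (T : Finset V), T.card ≤ 4 → ∃ x ∈ X, x ∉ T ∧ v x ≠ a) :
    ∃ P, Mat X v P := by
  obtain ⟨y0, hy0⟩ : X.Nonempty := by rw [← Finset.card_pos]; omega
  obtain ⟨x0, hx0, -, n0⟩ := hA (v y0) ∅ (by simp)
  have hxy0 : x0 ≠ y0 := fun e => n0 (by rw [e])
  have c2 : ({x0, y0} : Finset V).card ≤ 2 := Finset.card_le_two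
  obtain ⟨y1, hy1⟩ : (X \ {x0, y0}).Nonempty := by
    rw [← Finset.card_pos]
    have := Finset.le_card_sdiff ({x0, y0} : Finset V) X
    omega
  obtain ⟨x1, hx1, hx1', n1⟩ := hA (v y1) {x0, y0} (by omega)
  have hxy1 : x1 ≠ y1 := fun e => n1 (by rw [e])
  have c4 : ({x0, y0, x1, y1} : Finset V).card ≤ 4 := Finset.card_le_four
  obtain ⟨y2, hy2⟩ : (X \ {x0, y0, x1, y1}).Nonempty := by
    rw [← Finset.card_pos]
    have := Finset.le_card_sdiff ({x0, y0, x1, y1} : Finset V) X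
    omega
  obtain ⟨x2, hx2, hx2', n2⟩ := hA (v y2) {x0, y0, x1, y1} c4
  have hxy2 : x2 ≠ y2 := fun e => n2 (by rw [e])
  have c6 : ({x0, y0, x1, y1, x2, y2} : Finset V).card ≤ 6 := Finset.card_le_six
  have hR : 2 < (X \ {x0, y0, x1, y1, x2, y2}).card := by
    have := Finset.le_card_sdiff ({x0, y0, x1, y1, x2, y2} : Finset V) X
    omega
  simp only [Finset.mem_sdiff, Finset.mem_insert, Finset.mem_singleton, not_or] at hy1 hx1' hy2 hx2'
  obtain ⟨hy1, y10, y10'⟩ := hy1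
  obtain ⟨x10, x10'⟩ := hx1'
  obtain ⟨hy2, y20, y20', y21, y21'⟩ := hy2
  obtain ⟨x20, x20', x21, x21'⟩ := hx2'
  by_cases hne : ∀ r ∈ X \ {x0, y0, x1, y1, x2, y2}, ∀ s ∈ X \ {x0, y0, x1, y1, x2, y2}, v r = v s
  · -- all remaining values agree
    obtain ⟨r1, hr1, r2, hr2, r3, hr3, r12, r13, r23⟩ := Finset.two_lt_card.mp hR
    have hr1' := hr1
    have val : ∀ r ∈ X, r ∉ ({x0, y0, x1, y1, x2, y2} : Finset V) → v r = v r1 := fun r hr hr' =>
      hne r (Finset.mem_sdiff.mpr ⟨hr, hr'⟩) r1 hr1'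
    have v2 : v r2 = v r1 := hne _ hr2 _ hr1
    have v3 : v r3 = v r1 := hne _ hr3 _ hr1
    simp only [Finset.mem_sdiff, Finset.mem_insert, Finset.mem_singleton, not_or] at hr1 hr2 hr3
    obtain ⟨hr1, r1a, r1b, r1c, r1d, r1e, r1f⟩ := hr1
    obtain ⟨hr2, r2a, r2b, r2c, r2d, r2e, r2f⟩ := hr2
    obtain ⟨hr3, r3a, r3b, r3c, r3d, r3e, r3f⟩ := hr3
    by_cases h0 : v x0 ≠ v r1 ∧ v y0 ≠ v r1
    · refine mkMat (p0 := x0) (p1 := r1) (p2 := y0) (p3 := r2) (p4 := x1) (p5 := y1) (p6 := x2)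
        (p7 := y2) (p8 := r3) ?_ hx0 hr1 hy0 hr2 hx1 hy1 hx2 hy2 hr3 h0.1 (by rw [v2]; exact h0.2)
        n1 n2
      simp only [List.nodup_cons, List.mem_cons, List.not_mem_nil, or_false, not_or,
            List.nodup_nil, not_false_eq_true, and_true]
      refine ⟨⟨Ne.symm r1a, hxy0, Ne.symm r2a, Ne.symm x10, Ne.symm y10, Ne.symm x20, Ne.symm y20,
        Ne.symm r3a⟩, ⟨r1b, r12, r1c, r1d, r1e, r1f, r13⟩, ⟨Ne.symm r2b, Ne.symm x10', Ne.symm y10',
        Ne.symm x20', Ne.symm y20', Ne.symm r3b⟩, ⟨r2c, r2d, r2e, r2f, r23⟩, ⟨hxy1, Ne.symm x21,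
        Ne.symm y21, Ne.symm r3c⟩, ⟨Ne.symm x21', Ne.symm y21', Ne.symm r3d⟩, ⟨hxy2, Ne.symm r3e⟩,
        Ne.symm r3f⟩
    · by_cases h1 : v x1 ≠ v r1 ∧ v y1 ≠ v r1
      · refine mkMat (p0 := x1) (p1 := r1) (p2 := y1) (p3 := r2) (p4 := x0) (p5 := y0) (p6 := x2)
          (p7 := y2) (p8 := r3) ?_ hx1 hr1 hy1 hr2 hx0 hy0 hx2 hy2 hr3 h1.1
          (by rw [v2]; exact h1.2) n0 n2
        simp only [List.nodup_cons, List.mem_cons, List.not_mem_nil, or_false, not_or,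
              List.nodup_nil, not_false_eq_true, and_true]
        refine ⟨⟨Ne.symm r1c, hxy1, Ne.symm r2c, x10, x10', Ne.symm x21, Ne.symm y21,
          Ne.symm r3c⟩, ⟨r1d, r12, r1a, r1b, r1e, r1f, r13⟩, ⟨Ne.symm r2d, y10, y10',
          Ne.symm x21', Ne.symm y21', Ne.symm r3d⟩, ⟨r2a, r2b, r2e, r2f, r23⟩, ⟨hxy0, Ne.symm x20,
          Ne.symm y20, Ne.symm r3a⟩, ⟨Ne.symm x20', Ne.symm y20', Ne.symm r3b⟩,
          ⟨hxy2, Ne.symm r3e⟩, Ne.symm r3f⟩
      · exfalso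
        obtain ⟨x, hx, hxT, hxv⟩ := hA (v r1) {(if v x0 = v r1 then y0 else x0),
          (if v x1 = v r1 then y1 else x1), x2, y2} Finset.card_le_four
        simp only [Finset.mem_insert, Finset.mem_singleton, not_or] at hxT
        obtain ⟨t0, t1, t2, t3⟩ := hxT
        apply hxv
        by_cases q0 : x = x0
        · by_contra hq
          rw [q0] at hq
          rw [if_neg hq] at t0
          exact t0 q0
        by_cases q1 : x = y0
        · by_contra hq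
          rw [q1] at hq
          have : v x0 = v r1 := by
            by_contra h'; exact h0 ⟨h', hq⟩
          rw [if_pos this] at t0
          exact t0 q1
        by_cases q2 : x = x1
        · by_contra hq
          rw [q2] at hq
          rw [if_neg hq] at t1
          exact t1 q2
        by_cases q3 : x = y1
        · by_contra hq
          rw [q3] at hq
          have : v x1 = v r1 := by
            by_contra h'; exact h1 ⟨h', hq⟩
          rw [if_pos this] at t1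
          exact t1 q3
        exact val x hx (by
          simp only [Finset.mem_insert, Finset.mem_singleton, not_or]
          exact ⟨q0, q1, q2, q3, t2, t3⟩)
  · push Not at hne
    obtain ⟨r, hr, s, hs, hrs⟩ := hne
    have hrs' : r ≠ s := fun e => hrs (by rw [e])
    have c2' : ({r, s} : Finset V).card ≤ 2 := Finset.card_le_two
    obtain ⟨z, hz⟩ : ((X \ {x0, y0, x1, y1, x2, y2}) \ {r, s}).Nonempty := by
      rw [← Finset.card_pos]
      have := Finset.le_card_sdiff ({r, s} : Finset V) (X \ {x0, y0, x1, y1, x2, y2})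
      omega
    simp only [Finset.mem_sdiff, Finset.mem_insert, Finset.mem_singleton, not_or] at hr hs hz
    obtain ⟨hr, ra, rb, rc, rd, re, rf⟩ := hr
    obtain ⟨hs, sa, sb, sc, sd, se, sf⟩ := hs
    obtain ⟨⟨hz, za, zb, zc, zd, ze, zf⟩, zr, zs⟩ := hz
    refine mkMat (p0 := x0) (p1 := y0) (p2 := x1) (p3 := y1) (p4 := x2) (p5 := y2) (p6 := r)
        (p7 := s) (p8 := z) ?_ hx0 hy0 hx1 hy1 hx2 hy2 hr hs hz n0 n1 n2 hrs
    simp only [List.nodup_cons, List.mem_cons, List.not_mem_nil, or_false, not_or,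
            List.nodup_nil, not_false_eq_true, and_true]
    refine ⟨⟨hxy0, Ne.symm x10, Ne.symm y10, Ne.symm x20, Ne.symm y20, Ne.symm ra, Ne.symm sa,
      Ne.symm za⟩, ⟨Ne.symm x10', Ne.symm y10', Ne.symm x20', Ne.symm y20', Ne.symm rb, Ne.symm sb,
      Ne.symm zb⟩, ⟨hxy1, Ne.symm x21, Ne.symm y21, Ne.symm rc, Ne.symm sc, Ne.symm zc⟩,
      ⟨Ne.symm x21', Ne.symm y21', Ne.symm rd, Ne.symm sd, Ne.symm zd⟩,
      ⟨hxy2, Ne.symm re, Ne.symm se, Ne.symm ze⟩, ⟨Ne.symm rf, Ne.symm sf, Ne.symm zf⟩,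
      ⟨hrs', Ne.symm zr⟩, Ne.symm zs⟩

/-- the structure theorem. -/
theorem structure_types {X : Finset V} {v : V → F2} (hH : HH X v) (hX : 9 ≤ X.card) :
    OnLine X v ∨ ∃ (a : F2) (T : Finset V), T.card ≤ 4 ∧ ∀ x ∈ X, x ∉ T → v x = a := by
  by_cases hL : OnLine X v
  · exact Or.inl hL
  right
  by_contra hA
  push Not at hA
  obtain ⟨P, hP⟩ := exists_mat hX hA
  have d01 := dirs_ne' hH hL hP
  -- all leftovers have the same value
  have lo : ∀ z ∈ X, (∀ i : Fin 9, i ≠ 8 → P i ≠ z) → v z = v (P 8) := by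
    intro z hz hzP
    have hP' : Mat X v (update P 8 z) := by
      refine ⟨?_, ?_, ?_, ?_, ?_, ?_⟩
      · intro i j hij
        by_cases hi : i = 8
        · by_cases hj : j = 8
          · rw [hi, hj]
          · rw [hi, update_self, update_of_ne hj] at hij
            exact absurd hij.symm (hzP j hj)
        · by_cases hj : j = 8
          · rw [hj, update_self, update_of_ne hi] at hij
            exact absurd hij (hzP i hi)
          · rw [update_of_ne hi, update_of_ne hj] at hij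
            exact hP.inj hij
      · intro i
        by_cases hi : i = 8
        · rw [hi, update_self]; exact hz
        · rw [update_of_ne hi]; exact hP.mem i
      · simpa using hP.n0
      · simpa using hP.n1
      · simpa using hP.n2
      · simpa using hP.n3
    by_contra hne
    have a1 := rep_line hH hL hP
    have a2 := rep_line hH hL hP'
    have b1 := rep_line hH hL hP.swap01
    have b2 := rep_line hH hL hP'.swap01
    have a2' : ell (dir (v (P 0) - v (P 1))) (v z) = ell (dir (v (P 0) - v (P 1))) (v (P 0)) := by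
      simpa using a2
    have b1' : ell (dir (v (P 2) - v (P 3))) (v (P 8)) = ell (dir (v (P 2) - v (P 3))) (v (P 2)) :=
      b1
    have b2' : ell (dir (v (P 2) - v (P 3))) (v z) = ell (dir (v (P 2) - v (P 3))) (v (P 2)) := by
      simpa using b2
    have c1 := dir_eq_of_ell v _ z (P 8) hne (a2'.trans a1.symm)
    have c2 := dir_eq_of_ell v _ z (P 8) hne (b2'.trans b1'.symm)
    exact d01 (c1.symm.trans c2)
  have l0 := leftover hH hL hP
  have l1 := leftover hH hL hP.swap01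
  have l2 := leftover hH hL hP.swap12.swap01
  have l3 := leftover hH hL hP.swap23.swap12.swap01
  have l1' : v (P 8) = v (P 2) ∨ v (P 8) = v (P 3) := l1
  have l2' : v (P 8) = v (P 4) ∨ v (P 8) = v (P 5) := l2
  have l3' : v (P 8) = v (P 6) ∨ v (P 8) = v (P 7) := l3
  obtain ⟨x, hx, hxT, hxv⟩ := hA (v (P 8)) {(if v (P 8) = v (P 0) then P 1 else P 0),
    (if v (P 8) = v (P 2) then P 3 else P 2), (if v (P 8) = v (P 4) then P 5 else P 4),
    (if v (P 8) = v (P 6) then P 7 else P 6)} Finset.card_le_four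
  simp only [Finset.mem_insert, Finset.mem_singleton, not_or] at hxT
  obtain ⟨t0, t1, t2, t3⟩ := hxT
  apply hxv
  have aux : ∀ p q : V, (v (P 8) = v p ∨ v (P 8) = v q) →
      x ≠ (if v (P 8) = v p then q else p) → (x = p ∨ x = q) → v x = v (P 8) := by
    intro p q h1 h2 h3
    by_cases hp : v (P 8) = v p
    · rw [if_pos hp] at h2
      rcases h3 with h3 | h3
      · rw [h3, hp]
      · exact absurd h3 h2
    · rw [if_neg hp] at h2
      rcases h3 with h3 | h3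
      · exact absurd h3 h2
      · rw [h3]
        rcases h1 with h1 | h1
        · exact absurd h1 hp
        · exact h1.symm
  by_cases q0 : x = P 0 ∨ x = P 1
  · exact aux _ _ l0 t0 q0
  by_cases q1 : x = P 2 ∨ x = P 3
  · exact aux _ _ l1' t1 q1
  by_cases q2 : x = P 4 ∨ x = P 5
  · exact aux _ _ l2' t2 q2
  by_cases q3 : x = P 6 ∨ x = P 7
  · exact aux _ _ l3' t3 q3
  push Not at q0 q1 q2 q3
  apply lo x hx
  intro i hi
  fin_cases i
  · exact Ne.symm q0.1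
  · exact Ne.symm q0.2
  · exact Ne.symm q1.1
  · exact Ne.symm q1.2
  · exact Ne.symm q2.1
  · exact Ne.symm q2.2
  · exact Ne.symm q3.1
  · exact Ne.symm q3.2
  · exact absurd rfl hi

end H717.Z3
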